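import Pool.Agent.Helper27.EB.Defs

/-!
# Project NI (MP_eb515b_lc): nested islands

An LCL problem with six labels on the grid `Z^d`, `d ≥ 2` (found by helper24): labels `(l, b)` with `l : ZMod 3`, `b : Bool`.
Adjacent vertices with the same `l` have different `b`; on each 4-cycle the values of `l` are `i` and `i + 1` for some `i`, and if two
opposite vertices have the value `i`, then all four have.  So `l` is the class mod 3 of a height function whose sublevel sets have
components which are boxes.
-/

set_option autoImplicit false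

namespace NI

open EB

/-- the labels -/
abbrev Lab : Type := ZMod 3 × Bool

/-- the rule for an edge -/
def Edge (a b : Lab) : Prop := a.1 = b.1 → a.2 ≠ b.2

/-- The rule for a 4-cycle `a, b, c, e` (in this cyclic order). -/
def Quad (a b c e : ZMod 3) : Prop :=
  ∃ i : ZMod 3, (a = i ∨ a = i + 1) ∧ (b = i ∨ b = i + 1) ∧ (c = i ∨ c = i + 1) ∧ (e = i ∨ e = i + 1) ∧
    (a = i → c = i → b = i ∧ e = i) ∧ (b = i → e = i → a = i ∧ c = i)

/-- The LCL problem (radius `2`): the rules for the edges and the 4-cycles through the root. -/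
def lcl : LCL Lab where
  r := 2
  P A := (∀ u, A.graph.Adj A.root u → Edge (A.lab A.root) (A.lab u)) ∧
    ∀ u w v, A.graph.Adj A.root u → A.graph.Adj u w → A.graph.Adj w v → A.graph.Adj v A.root →
      u ≠ v → w ≠ A.root → Quad (A.lab A.root).1 (A.lab u).1 (A.lab w).1 (A.lab v).1
  iso := by
    rintro A B ⟨e, he, hl⟩ ⟨h1, h2⟩
    have hs : ∀ b, A.lab (e.symm b) = B.lab b := fun b => by
      rw [← hl (e.symm b), RelIso.apply_symm_apply]
    have hr : e.symm B.root = A.root := by
      rw [← he, RelIso.symm_apply_apply]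
    have ha : ∀ b c, B.graph.Adj b c → A.graph.Adj (e.symm b) (e.symm c) := fun b c h =>
      e.symm.map_adj_iff.2 h
    refine ⟨fun u hu => ?_, fun u w v h3 h4 h5 h6 h7 h8 => ?_⟩
    · have := h1 (e.symm u) (by rw [← hr]; exact ha _ _ hu)
      rw [← hr, hs, hs] at this
      exact this
    · have := h2 (e.symm u) (e.symm w) (e.symm v) (by rw [← hr]; exact ha _ _ h3) (ha _ _ h4)
        (ha _ _ h5) (by rw [← hr]; exact ha _ _ h6) (fun h => h7 (e.symm.injective h))
        (fun h => h8 (e.symm.injective (h.trans hr.symm)))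
      rw [← hr, hs, hs, hs, hs] at this
      exact this

/-- the unit vector -/
def un {d : ℕ} (i : Fin d) : Gd d := Pi.single i 1

/-- A configuration on the grid with all rules. -/
structure Conf {d : ℕ} (y : Gd d → Lab) : Prop where
  edge : ∀ g i, Edge (y g) (y (g + un i))
  quad : ∀ g i j, i ≠ j → Quad (y g).1 (y (g + un i)).1 (y (g + un i + un j)).1 (y (g + un j)).1

/-- Each label repeats along a lattice `3^e Z^d`. -/
def Toep {d : ℕ} (y : Gd d → Lab) : Prop :=
  ∀ g, ∃ e : ℕ, ∀ w : Gd d, y (g + (3 ^ e : ℤ) • w) = y g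

/-- Some label occurs in each interval with `N` cells, in each direction. -/
def Synd {d : ℕ} (y : Gd d → Lab) : Prop :=
  ∃ (s : Lab) (N : ℕ), ∀ g i, ∃ t : ℕ, t < N ∧ y (g + (t : ℤ) • un i) = s

end NI
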