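import Pool.Agent.Helper33.NI.GridA

/-!
# NI-02: the LCL problem on the grid, second half

Root `0`, `u = ± un i`, `v = ± un j` (`adj_grid`), `u ≠ v`, `w` adjacent to both, `w ≠ 0`.  Then `i ≠ j` and `w = u + v`: `w = u ± un k = v ± un l` (`i = j` would give `v = -u`, `2 u = ± un l ∓ un k`, so `w = 0`; compare coordinates).
Four cases for the signs: use `quad` at `0`, `- un i`, `- un j`, `- un i - un j` and the symmetries `Quad.rot`, `Quad.flip`.
`conf_shift`: clear.
-/

set_option autoImplicit false

namespace NI

open EB

private theorem adj_ex {d : ℕ} {g h : Gd d} (H : (grid d).Adj g h) :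
    ∃ (i : Fin d) (s : ℤ), (s = 1 ∨ s = -1) ∧ h = g + Pi.single i s := by
  rw [adj_grid] at H
  rcases H with ⟨-, ⟨i, hi⟩ | ⟨i, hi⟩⟩
  · exact ⟨i, 1, Or.inl rfl, hi⟩
  · refine ⟨i, -1, Or.inr rfl, ?_⟩
    rw [hi, Pi.single_neg, add_neg_cancel_right]

private theorem two_dec {d : ℕ} {i j k l : Fin d} {s t s' t' : ℤ} (hs : s = 1 ∨ s = -1)
    (ht : t = 1 ∨ t = -1) (hs' : s' = 1 ∨ s' = -1) (ht' : t' = 1 ∨ t' = -1)
    (h : (Pi.single i s + Pi.single k s' : Gd d) = Pi.single j t + Pi.single l t')
    (h0 : (Pi.single i s + Pi.single k s' : Gd d) ≠ 0)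
    (hne : (Pi.single i s : Gd d) ≠ Pi.single j t) : i ≠ j ∧ k = j ∧ s' = t := by
  have hi := congrFun h i
  have hj := congrFun h j
  simp only [Pi.add_apply, Pi.single_apply] at hi hj
  by_cases hij : i = j
  · subst hij
    exfalso
    have hst : s ≠ t := fun e => hne (by rw [e])
    simp only [if_true] at hi hj
    by_cases hik : i = k
    · subst hik
      apply h0
      simp only [if_true] at hi
      have e : s' = -s := by
        split_ifs at hi <;> omega
      rw [e, Pi.single_neg, add_neg_cancel]
    · rw [if_neg hik] at hi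
      split_ifs at hi <;> omega
  · refine ⟨hij, ?_⟩
    simp only [if_true] at hi hj
    rw [if_neg hij] at hi
    rw [if_neg (Ne.symm hij)] at hj
    by_cases hjk : j = k
    · subst hjk
      refine ⟨rfl, ?_⟩
      rw [if_pos rfl] at hj
      by_cases hjl : j = l
      · subst hjl
        rw [if_neg hij, if_neg hij] at hi
        omega
      · rw [if_neg hjl] at hj
        omega
    · exfalso
      rw [if_neg hjk] at hj
      by_cases hjl : j = l
      · subst hjl
        rw [if_pos rfl] at hj
        rw [if_neg hij] at hi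
        by_cases hik : i = k
        · subst hik
          rw [if_pos rfl] at hi
          apply h0
          have e : s' = -s := by omega
          rw [e, Pi.single_neg, add_neg_cancel]
        · rw [if_neg hik] at hi
          omega
      · rw [if_neg hjl] at hj
        omega

theorem conf_shift {d : ℕ} (y : Gd d → Lab) (h : Conf y) (v : Gd d) : Conf fun g => y (v + g) := by
  refine ⟨fun g i => ?_, fun g i j hij => ?_⟩
  · have := h.edge (v + g) i
    rw [add_assoc] at this
    exact this
  · have := h.quad (v + g) i j hij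
    rw [add_assoc v g (un i), add_assoc v (g + un i) (un j), add_assoc v g (un j)] at this
    exact this

theorem allowed_of_conf {d : ℕ} (y : Gd d → Lab) (h : Conf y) : Allowed d lcl fun b => y b.1 := by
  refine ⟨?_, ?_⟩
  · rintro ⟨u, hu⟩ hadj
    have hadj' : (grid d).Adj 0 u := hadj
    show Edge (y 0) (y u)
    rw [adj_grid] at hadj'
    rcases hadj' with ⟨-, ⟨i, hi⟩ | ⟨i, hi⟩⟩
    · rw [hi]
      exact h.edge 0 i
    · have := h.edge u i
      unfold un at this
      rw [← hi] at this
      exact this.symm
  · rintro ⟨u, hu⟩ ⟨w, hw⟩ ⟨v, hv⟩ a1 a2 a3 a4 n1 n2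
    have b1 : (grid d).Adj 0 u := a1
    have b2 : (grid d).Adj u w := a2
    have b3 : (grid d).Adj v w := (show (grid d).Adj w v from a3).symm
    have b4 : (grid d).Adj 0 v := (show (grid d).Adj v 0 from a4).symm
    have n3 : u ≠ v := fun e => n1 (Subtype.ext e)
    have n4 : w ≠ 0 := fun e => n2 (Subtype.ext e)
    show Quad (y 0).1 (y u).1 (y w).1 (y v).1
    obtain ⟨i, s, hs, e1⟩ := adj_ex b1
    obtain ⟨k, s', hs', e2⟩ := adj_ex b2
    obtain ⟨l, t', ht', e3⟩ := adj_ex b3
    obtain ⟨j, t, ht, e4⟩ := adj_ex b4
    rw [zero_add] at e1 e4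
    rw [e1] at e2 n3
    rw [e4] at e3 n3
    obtain ⟨hij, hk, hst⟩ := two_dec hs ht hs' ht' (e2.symm.trans e3) (by rw [← e2]; exact n4) n3
    rw [hk, hst] at e2
    rw [e1, e2, e4]
    rcases hs with rfl | rfl <;> rcases ht with rfl | rfl
    · have q := h.quad 0 i j hij
      rw [zero_add, zero_add] at q
      exact q
    · have q := h.quad (-un j) i j hij
      have r1 : -un j + un i = (Pi.single i 1 + Pi.single j (-1) : Gd d) := by
        rw [Pi.single_neg, add_comm]
        rfl
      have r2 : -un j + un i + un j = (Pi.single i 1 : Gd d) := by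
        unfold un
        abel
      have r3 : -un j + un j = (0 : Gd d) := neg_add_cancel _
      have r4 : (-un j : Gd d) = Pi.single j (-1) := by
        rw [Pi.single_neg]
        rfl
      rw [r2, r3, r1, r4] at q
      exact q.rot.rot.rot.flip
    · have q := h.quad (-un i) i j hij
      have r1 : -un i + un j = (Pi.single i (-1) + Pi.single j 1 : Gd d) := by
        rw [Pi.single_neg]
        rfl
      have r3 : -un i + un i = (0 : Gd d) := neg_add_cancel _
      have r2 : (0 : Gd d) + un j = Pi.single j 1 := by
        rw [zero_add]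
        rfl
      have r4 : (-un i : Gd d) = Pi.single i (-1) := by
        rw [Pi.single_neg]
        rfl
      rw [r3, r2, r1, r4] at q
      exact q.flip.rot.rot.rot
    · have q := h.quad (-un i - un j) i j hij
      have r1 : -un i - un j + un i = (Pi.single j (-1) : Gd d) := by
        rw [Pi.single_neg]
        unfold un
        abel
      have r3 : (Pi.single j (-1) : Gd d) + un j = 0 := by
        rw [Pi.single_neg]
        exact neg_add_cancel _
      have r2 : -un i - un j + un j = (Pi.single i (-1) : Gd d) := by
        rw [Pi.single_neg]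
        unfold un
        abel
      have r4 : (-un i - un j : Gd d) = Pi.single i (-1) + Pi.single j (-1) := by
        rw [Pi.single_neg, Pi.single_neg]
        unfold un
        abel
      rw [r1, r2, r3, r4] at q
      exact q.rot.rot

end NI
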