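import Pool.Agent.Helper33.NI.Gad

/-!
# NI-17: gadgets are nested

`gad_kind`.
* First case: `Deep` (take the corner with all `m i` and the one with all `m i + N - 1`).
* Second case: the cube `(N, m)` is in the cube `(N', m')`.  If `N < N'` then for each `i` one of `m i`, `m i + N - 1` is different from both `m' i`, `m' i + N' - 1` (they lie between them, and both being extreme would give `N = N'` or `N = 1`, but `7 ≤ N`): the corner with
these coordinates is `Sh 1`, contradiction.  So `N = N'` and then `m = m'`.
* Third case: if not `Apart` then for each `i` one of `m i`, `m i + N - 1` lies in `[m' i - 1, m' i + N']` (the intervals intersect and the first one is shorter: `N ≤ N'`): the corner with these coordinates is `Sh (-1)`, contradiction.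
-/

set_option autoImplicit false

namespace NI

open EB

theorem gad_nest {d : ℕ} (hd : 2 ≤ d) (x : Om d) (N N' : ℕ) (m m' : Gd d) (h : Gad x N m)
    (h' : Gad x N' m') (hN : N ≤ N') : (N = N' ∧ m = m') ∨ Deep N m N' m' ∨ Apart N m N' m' := by
  have h7 := h.1
  rcases gad_kind hd x N N' m m' h h' with h1 | h1 | h1
  · right
    left
    intro i
    have h2 := h1 (fun _ => false) i
    have h3 := h1 (fun _ => true) i
    simp only [Pi.sub_apply, cor] at h2 h3
    rw [if_neg (by simp)] at h2
    rw [if_pos trivial] at h3
    omega
  · left
    have hb : ∀ i, m' i ≤ m i ∧ m i + N ≤ m' i + N' := by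
      intro i
      have h2 := (h1 (fun _ => false)).1 i
      have h3 := (h1 (fun _ => true)).1 i
      simp only [Pi.sub_apply, cor] at h2 h3
      rw [if_neg (by simp)] at h2
      rw [if_pos trivial] at h3
      omega
    have hNN : N = N' := by
      by_contra hne
      apply (h1 (fun i => decide (m i = m' i))).2
      intro i
      have h2 := hb i
      simp only [Pi.sub_apply, cor, decide_eq_true_eq]
      split_ifs with h3 <;> omega
    refine ⟨hNN, ?_⟩
    funext i
    have h2 := hb i
    omega
  · right
    right
    by_contra hA
    unfold Apart at hA
    push Not at hA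
    apply h1 (fun i => decide (m i < m' i - 1))
    intro i
    have h2 := hA i
    simp only [Pi.sub_apply, cor, decide_eq_true_eq]
    split_ifs with h3 <;> omega

end NI
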