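import Pool.Agent.Helper33.NI.GadDense
import Pool.Agent.Helper27.EB.Resid

/-!
# NI-19: the set of the points covered by gadgets is residual

Each set `{x : FP d | ∃ N m, Gad x.1 N m ∧ Sh 0 N (g - m)}` is open and dense in `FP d` (the free part is dense: `resid_FP`, `dense_of_mem_residual`; so a dense open set of `Om d` meets each nonempty relatively open set of `FP d`); countable intersection over `g`.
-/

set_option autoImplicit false

namespace NI

open EB

private theorem gad_open' {d : ℕ} (g : Gd d) : IsOpen {x : Om d | ∃ N m, Gad x N m ∧ Sh 0 N (g - m)} := by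
  have h : {x : Om d | ∃ N m, Gad x N m ∧ Sh 0 N (g - m)} =
      ⋃ (N : ℕ) (m : Gd d) (_ : Sh 0 N (g - m)), {x : Om d | Gad x N m} := by
    ext x
    simp only [Set.mem_ofPred_eq, Set.mem_iUnion, exists_prop]
    constructor
    · rintro ⟨N, m, h1, h2⟩
      exact ⟨N, m, h2, h1⟩
    · rintro ⟨N, m, h1, h2⟩
      exact ⟨N, m, h2, h1⟩
  rw [h]
  exact isOpen_iUnion fun N => isOpen_iUnion fun m => isOpen_iUnion fun _ => gad_open N m

theorem gad_resid (d : ℕ) : {x : FP d | ∀ g, ∃ N m, Gad x.1 N m ∧ Sh 0 N (g - m)} ∈ residual (FP d) := by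
  have h1 : {x : FP d | ∀ g, ∃ N m, Gad x.1 N m ∧ Sh 0 N (g - m)} =
      ⋂ g : Gd d, {x : FP d | ∃ N m, Gad x.1 N m ∧ Sh 0 N (g - m)} := by
    ext x
    simp
  rw [h1, countable_iInter_mem]
  intro g
  refine residual_of_dense_open ((gad_open' g).preimage continuous_subtype_val) ?_
  have h2 : {x : Om d | ∃ N m, Gad x N m ∧ Sh 0 N (g - m)} ∩ FP d ∈ residual (Om d) :=
    Filter.inter_mem (residual_of_dense_open (gad_open' g) (gad_dense g)) (resid_FP d)
  have h3 := dense_of_mem_residual h2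
  rw [dense_iff_inter_open]
  rintro V hV ⟨y, hy⟩
  obtain ⟨O, hO, rfl⟩ := isOpen_induced_iff.1 hV
  obtain ⟨x, hxO, hx, hxF⟩ := h3.inter_open_nonempty O hO ⟨y.1, hy⟩
  exact ⟨⟨x, hxF⟩, hxO, hx⟩

end NI
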