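import Pool.Agent.Helper33.NI.Isl

/-!
# NI-12: the rules inside an island

`in_edge`: `∑ i, (p + un i) i = ∑ i, p i + 1`, `par_succ`: the second components differ.
`in_quad`: the positions `p, p + un i, p + un i + un j, p + un j`.  `Sh r N` of such a position is a condition on each coordinate.  If one of the four positions is in `Sh 2 N` then all are in `Sh 1 N`, so the values are `0, 1` (`i = 0` in `Quad`);
otherwise the values are `1, 2` (`i = 1`).  If `p` and `p + un i + un j` are in `Sh r N` then so are the other two; the same for the other diagonal (only the coordinates `i`, `j` differ).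
`lev_two`: if `Sh 1 N p` then `Sh 0 N q`.  `lev_zero`: `Sh 2 N' (g - m')`.
-/

set_option autoImplicit false

namespace NI

open EB

variable {d : ℕ}

theorem in_edge (N : ℕ) (p : Gd d) (i : Fin d) : Edge (content N p) (content N (p + un i)) := by
  intro _ h
  have hs : ∑ k, (p + un i) k = ∑ k, p k + 1 := by
    have h1 : ∀ k, (p + un i) k = p k + un i k := fun k => rfl
    simp only [h1, Finset.sum_add_distrib]
    congr 1
    unfold un
    rw [Finset.sum_pi_single']
    simp
  have h2 : par (∑ k, p k) = par (∑ k, (p + un i) k) := h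
  rw [hs, par_succ] at h2
  revert h2
  cases par (∑ k, p k) <;> simp

private lemma un_self (i : Fin d) : un i i = 1 := by simp [un]

private lemma un_ne {i k : Fin d} (h : k ≠ i) : un i k = 0 := by simp [un, h]

private lemma sh_two {N : ℕ} {x y : Gd d} (h : Sh 2 N x) (hxy : ∀ k, |x k - y k| ≤ 1) :
    Sh 1 N y := by
  intro k
  have h1 := h k
  have h2 := abs_le.1 (hxy k)
  constructor <;> omega

private lemma sh_mono {N : ℕ} {x : Gd d} (h : Sh 2 N x) : Sh 1 N x := by
  intro k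
  have h1 := h k
  constructor <;> omega

/-- the diagonal rule -/
private lemma sh_diag {r : ℤ} {N : ℕ} {x y z : Gd d} (hx : Sh r N x) (hy : Sh r N y)
    (h : ∀ k, z k = x k ∨ z k = y k) : Sh r N z := by
  intro k
  rcases h k with h1 | h1
  · rw [h1]; exact hx k
  · rw [h1]; exact hy k

private lemma lev_low {N : ℕ} {x : Gd d} (h : Sh 1 N x) : (lev N x = 0 ∧ Sh 2 N x) ∨
    (lev N x = 0 + 1 ∧ ¬ Sh 2 N x) := by
  by_cases h2 : Sh 2 N x
  · left; exact ⟨by simp [lev, h2], h2⟩
  · right; exact ⟨by simp [lev, h2, h], h2⟩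

private lemma lev_high {N : ℕ} {x : Gd d} (h : ¬ Sh 2 N x) : (lev N x = 1 ∧ Sh 1 N x) ∨
    (lev N x = 1 + 1 ∧ ¬ Sh 1 N x) := by
  by_cases h2 : Sh 1 N x
  · left; exact ⟨by simp [lev, h2, h], h2⟩
  · right; exact ⟨by simp only [lev, h2, h, if_false]; decide, h2⟩

/-- the rule for a 4-cycle, from the shape of the sublevel set -/
private lemma quad_of {v : Gd d → ZMod 3} {S : Gd d → Prop} {t : ZMod 3} {a b c e : Gd d}
    (ha : (v a = t ∧ S a) ∨ (v a = t + 1 ∧ ¬ S a)) (hb : (v b = t ∧ S b) ∨ (v b = t + 1 ∧ ¬ S b))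
    (hc : (v c = t ∧ S c) ∨ (v c = t + 1 ∧ ¬ S c)) (he : (v e = t ∧ S e) ∨ (v e = t + 1 ∧ ¬ S e))
    (h1 : S a → S c → S b ∧ S e) (h2 : S b → S e → S a ∧ S c) : Quad (v a) (v b) (v c) (v e) := by
  have hall : ∀ u : ZMod 3, u + 1 ≠ u := by decide
  have ht : t + 1 ≠ t := hall t
  have iff : ∀ x : Gd d, ((v x = t ∧ S x) ∨ (v x = t + 1 ∧ ¬ S x)) → (v x = t ↔ S x) := by
    intro x hx
    rcases hx with ⟨h, h'⟩ | ⟨h, h'⟩
    · exact ⟨fun _ => h', fun _ => h⟩
    · exact ⟨fun h'' => absurd (h ▸ h'') ht, fun h'' => absurd h'' h'⟩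
  have ia := iff a ha
  have ib := iff b hb
  have ic := iff c hc
  have ie := iff e he
  refine ⟨t, ha.imp And.left And.left, hb.imp And.left And.left, hc.imp And.left And.left,
    he.imp And.left And.left, ?_, ?_⟩
  · intro h3 h4
    have := h1 (ia.1 h3) (ic.1 h4)
    exact ⟨ib.2 this.1, ie.2 this.2⟩
  · intro h3 h4
    have := h2 (ib.1 h3) (ie.1 h4)
    exact ⟨ia.2 this.1, ic.2 this.2⟩

theorem in_quad (N : ℕ) (p : Gd d) (i j : Fin d) (h : i ≠ j) :
    Quad (lev N p) (lev N (p + un i)) (lev N (p + un i + un j)) (lev N (p + un j)) := by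
  have ev : ∀ k, ((p + un i) k = p k + 1 ∧ (p + un j) k = p k ∧ (p + un i + un j) k = p k + 1) ∨
      ((p + un i) k = p k ∧ (p + un j) k = p k + 1 ∧ (p + un i + un j) k = p k + 1) ∨
      ((p + un i) k = p k ∧ (p + un j) k = p k ∧ (p + un i + un j) k = p k) := by
    intro k
    have e1 : (p + un i) k = p k + un i k := rfl
    have e2 : (p + un j) k = p k + un j k := rfl
    have e3 : (p + un i + un j) k = p k + un i k + un j k := rfl
    rw [e1, e2, e3]
    by_cases hi : k = i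
    · subst hi
      left
      rw [un_self, un_ne h]
      omega
    · by_cases hj : k = j
      · subst hj
        right; left
        rw [un_self, un_ne hi]
        omega
      · right; right
        rw [un_ne hi, un_ne hj]
        omega
  have dist : ∀ x y : Gd d, (x = p ∨ x = p + un i ∨ x = p + un i + un j ∨ x = p + un j) →
      (y = p ∨ y = p + un i ∨ y = p + un i + un j ∨ y = p + un j) → ∀ k, |x k - y k| ≤ 1 := by
    intro x y hx hy k
    rw [abs_le]
    rcases ev k with ⟨h1, h2, h3⟩ | ⟨h1, h2, h3⟩ | ⟨h1, h2, h3⟩ <;>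
      rcases hx with rfl | rfl | rfl | rfl <;> rcases hy with rfl | rfl | rfl | rfl <;>
      constructor <;> (try simp only [h1, h2, h3]) <;> omega
  have d1 : ∀ r : ℤ, Sh r N p → Sh r N (p + un i + un j) → Sh r N (p + un i) ∧ Sh r N (p + un j) := by
    intro r ha hc
    constructor
    · refine sh_diag ha hc fun k => ?_
      rcases ev k with ⟨h1, h2, h3⟩ | ⟨h1, h2, h3⟩ | ⟨h1, h2, h3⟩ <;> rw [h1, h3] <;> simp
    · refine sh_diag ha hc fun k => ?_
      rcases ev k with ⟨h1, h2, h3⟩ | ⟨h1, h2, h3⟩ | ⟨h1, h2, h3⟩ <;> rw [h2, h3] <;> simp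
  have d2 : ∀ r : ℤ, Sh r N (p + un i) → Sh r N (p + un j) → Sh r N p ∧ Sh r N (p + un i + un j) := by
    intro r ha hc
    constructor
    · refine sh_diag ha hc fun k => ?_
      rcases ev k with ⟨h1, h2, h3⟩ | ⟨h1, h2, h3⟩ | ⟨h1, h2, h3⟩ <;> rw [h1, h2] <;> simp
    · refine sh_diag ha hc fun k => ?_
      rcases ev k with ⟨h1, h2, h3⟩ | ⟨h1, h2, h3⟩ | ⟨h1, h2, h3⟩ <;> rw [h1, h2, h3] <;> simp
  by_cases hex : ∃ x, (x = p ∨ x = p + un i ∨ x = p + un i + un j ∨ x = p + un j) ∧ Sh 2 N x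
  · obtain ⟨x, hx, hx2⟩ := hex
    have all1 : ∀ y, (y = p ∨ y = p + un i ∨ y = p + un i + un j ∨ y = p + un j) → Sh 1 N y :=
      fun y hy => sh_two hx2 (dist x y hx hy)
    exact quad_of (v := lev N) (S := Sh 2 N) (t := 0) (lev_low (all1 _ (Or.inl rfl)))
      (lev_low (all1 _ (Or.inr (Or.inl rfl)))) (lev_low (all1 _ (Or.inr (Or.inr (Or.inl rfl)))))
      (lev_low (all1 _ (Or.inr (Or.inr (Or.inr rfl))))) (d1 2) (d2 2)
  · have all2 : ∀ y, (y = p ∨ y = p + un i ∨ y = p + un i + un j ∨ y = p + un j) → ¬ Sh 2 N y :=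
      fun y hy hS => hex ⟨y, hy, hS⟩
    exact quad_of (v := lev N) (S := Sh 1 N) (t := 1) (lev_high (all2 _ (Or.inl rfl)))
      (lev_high (all2 _ (Or.inr (Or.inl rfl)))) (lev_high (all2 _ (Or.inr (Or.inr (Or.inl rfl)))))
      (lev_high (all2 _ (Or.inr (Or.inr (Or.inr rfl))))) (d1 1) (d2 1)

theorem lev_two (N : ℕ) (p q : Gd d) (hp : Sh 0 N p) (hq : ¬ Sh 0 N q) (h : ∀ i, |p i - q i| ≤ 1) :
    lev N p = 2 := by
  have h1 : ¬ Sh 1 N p := by
    intro hs
    apply hq
    intro k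
    have h2 := hs k
    have h3 := abs_le.1 (h k)
    constructor <;> omega
  have h2 : ¬ Sh 2 N p := fun hs => h1 (sh_mono hs)
  simp [lev, h1, h2]

theorem lev_zero (N N' : ℕ) (m m' g : Gd d) (h : Deep N m N' m') (hg : ∀ i, m i - 1 ≤ g i ∧ g i ≤ m i + N) :
    lev N' (g - m') = 0 := by
  have h2 : Sh 2 N' (g - m') := by
    intro k
    have e : (g - m') k = g k - m' k := rfl
    rw [e]
    have h1 := h k
    have h3 := hg k
    constructor <;> omega
  simp [lev, h2]

end NI
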