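import Pool.Agent.Helper33.NI.IslSq
import Pool.Agent.Helper33.NI.LabIn

/-!
# NI-13: the labelling satisfies the rules

`exists_unique`: `exists_first`, `first_uniq`.
`lab_conf`: `square` with `g0 = g`.  If all the points are in `(N, m)`: `in_edge`, `in_quad` (positions `g - m`, `g + un i - m`, ...; by `first_uniq` the label of each point is `content N (· - m)`).  Otherwise the points in `(N, m)` have value `2` (`lev_two`) and those outside have
value `0 = 2 + 1` (`lev_zero`): `Edge`: the values differ, or both points are outside and in `(N', m')`: `in_edge` for `N'`, `m'`.  `Quad`: if all four are outside: `in_quad` for `(N', m')`; otherwise with `i = 2`: if two opposite points are in `(N, m)` then so are the other two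
(`Sh 0 N` is a condition on coordinates).
-/

set_option autoImplicit false

namespace NI

open EB

variable {d : ℕ} {J : ℕ → Gd d → Prop}

theorem Isl.exists_unique (hJ : Isl J) (g : Gd d) : ∃! c, IsLab J g c := by
  obtain ⟨N, m, h⟩ := hJ.exists_first g
  refine ⟨content N (g - m), ⟨N, m, h, rfl⟩, ?_⟩
  rintro c ⟨N', m', h', rfl⟩
  obtain ⟨rfl, rfl⟩ := hJ.first_uniq h h'
  rfl

private theorem lab_eq (hJ : Isl J) {y : Gd d → Lab} (hy : ∀ g, IsLab J g (y g)) {g : Gd d} {N : ℕ}
    {m : Gd d} (h : First J g N m) : y g = content N (g - m) := by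
  obtain ⟨N', m', h', h2⟩ := hy g
  obtain ⟨rfl, rfl⟩ := hJ.first_uniq h h'
  exact h2

private theorem un_apply (i k : Fin d) : un i k = if k = i then 1 else 0 := by
  simp [un, Pi.single_apply]

private theorem lab_alt (hJ : Isl J) {y : Gd d → Lab} (hy : ∀ g, IsLab J g (y g)) (g0 : Gd d) :
    ∃ N m N' m',
      (∀ g : Gd d, (∀ i, g0 i ≤ g i ∧ g i ≤ g0 i + 1) →
        (Sh 0 N (g - m) ∧ y g = content N (g - m)) ∨
          (¬ Sh 0 N (g - m) ∧ y g = content N' (g - m') ∧ (y g).1 = 0)) ∧
      ∀ g g' : Gd d, (∀ i, g0 i ≤ g i ∧ g i ≤ g0 i + 1) → (∀ i, g0 i ≤ g' i ∧ g' i ≤ g0 i + 1) →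
        Sh 0 N (g - m) → ¬ Sh 0 N (g' - m) → (y g).1 = 2 := by
  obtain ⟨N, m, N', m', h⟩ := hJ.square g0
  have h1 : ∀ g : Gd d, (∀ i, g0 i ≤ g i ∧ g i ≤ g0 i + 1) →
        (Sh 0 N (g - m) ∧ y g = content N (g - m)) ∨
          (¬ Sh 0 N (g - m) ∧ y g = content N' (g - m') ∧ (y g).1 = 0) := by
    intro g hg
    rcases h g hg with ⟨h1, h2⟩ | ⟨h1, h2, h3, h4⟩
    · exact Or.inl ⟨h1, lab_eq hJ hy h2⟩
    · have h5 := lab_eq hJ hy h2
      refine Or.inr ⟨h1, h5, ?_⟩
      rw [h5]
      exact lev_zero N N' m m' g h3 h4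
  refine ⟨N, m, N', m', h1, ?_⟩
  intro g g' hg hg' hs hs'
  rcases h1 g hg with ⟨_, h3⟩ | ⟨h2, _⟩
  · rw [h3]
    refine lev_two N (g - m) (g' - m) hs hs' fun i => ?_
    have e1 := hg i
    have e2 := hg' i
    simp only [Pi.sub_apply]
    rw [abs_le]
    constructor <;> omega
  · exact absurd hs h2

private theorem z20 : (2 : ZMod 3) ≠ 0 := by decide

theorem Isl.lab_conf (hJ : Isl J) (y : Gd d → Lab) (hy : ∀ g, IsLab J g (y g)) : Conf y := by
  constructor
  · intro g i
    obtain ⟨N, m, N', m', h1, h2⟩ := lab_alt hJ hy g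
    have c0 : ∀ k, g k ≤ g k ∧ g k ≤ g k + 1 := fun k => ⟨le_rfl, by omega⟩
    have c1 : ∀ k, g k ≤ (g + un i) k ∧ (g + un i) k ≤ g k + 1 := fun k => by
      rw [Pi.add_apply, un_apply]
      split_ifs <;> constructor <;> omega
    rcases h1 g c0 with ⟨a1, a2⟩ | ⟨a1, a2, a3⟩
    · rcases h1 (g + un i) c1 with ⟨b1, b2⟩ | ⟨b1, b2, b3⟩
      · rw [a2, b2, show g + un i - m = (g - m) + un i by abel]
        exact in_edge N (g - m) i
      · intro he
        have := h2 g _ c0 c1 a1 b1
        rw [this, b3] at he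
        exact absurd he z20
    · rcases h1 (g + un i) c1 with ⟨b1, b2⟩ | ⟨b1, b2, b3⟩
      · intro he
        have := h2 _ g c1 c0 b1 a1
        rw [this, a3] at he
        exact absurd he.symm z20
      · rw [a2, b2, show g + un i - m' = (g - m') + un i by abel]
        exact in_edge N' (g - m') i
  · intro g i j hij
    obtain ⟨N, m, N', m', h1, h2⟩ := lab_alt hJ hy g
    have c0 : ∀ k, g k ≤ g k ∧ g k ≤ g k + 1 := fun k => ⟨le_rfl, by omega⟩
    have c1 : ∀ k, g k ≤ (g + un i) k ∧ (g + un i) k ≤ g k + 1 := fun k => by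
      rw [Pi.add_apply, un_apply]
      split_ifs <;> constructor <;> omega
    have c3 : ∀ k, g k ≤ (g + un j) k ∧ (g + un j) k ≤ g k + 1 := fun k => by
      rw [Pi.add_apply, un_apply]
      split_ifs <;> constructor <;> omega
    have c2 : ∀ k, g k ≤ (g + un i + un j) k ∧ (g + un i + un j) k ≤ g k + 1 := fun k => by
      rw [Pi.add_apply, Pi.add_apply, un_apply, un_apply]
      by_cases e1 : k = i
      · have e2 : k ≠ j := fun h => hij (e1.symm.trans h)
        rw [if_pos e1, if_neg e2]
        constructor <;> omega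
      · rw [if_neg e1]
        split_ifs <;> constructor <;> omega
    have s1 : Sh 0 N (g - m) → Sh 0 N (g + un i + un j - m) →
        Sh 0 N (g + un i - m) ∧ Sh 0 N (g + un j - m) := by
      intro u v
      refine ⟨fun k => ?_, fun k => ?_⟩
      · have u1 := u k
        have v1 := v k
        simp only [Pi.sub_apply, Pi.add_apply, un_apply] at u1 v1 ⊢
        split_ifs at v1 ⊢ <;> constructor <;> omega
      · have u1 := u k
        have v1 := v k
        simp only [Pi.sub_apply, Pi.add_apply, un_apply] at u1 v1 ⊢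
        split_ifs at v1 ⊢ <;> constructor <;> omega
    have s2 : Sh 0 N (g + un i - m) → Sh 0 N (g + un j - m) →
        Sh 0 N (g - m) ∧ Sh 0 N (g + un i + un j - m) := by
      intro u v
      refine ⟨fun k => ?_, fun k => ?_⟩
      · have u1 := u k
        have v1 := v k
        simp only [Pi.sub_apply, Pi.add_apply, un_apply] at u1 v1 ⊢
        by_cases e1 : k = i
        · have e2 : k ≠ j := fun h => hij (e1.symm.trans h)
          rw [if_neg e2] at v1
          constructor <;> omega
        · rw [if_neg e1] at u1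
          constructor <;> omega
      · have u1 := u k
        have v1 := v k
        simp only [Pi.sub_apply, Pi.add_apply, un_apply] at u1 v1 ⊢
        by_cases e1 : k = i
        · have e2 : k ≠ j := fun h => hij (e1.symm.trans h)
          rw [if_pos e1] at u1
          rw [if_pos e1, if_neg e2]
          constructor <;> omega
        · rw [if_neg e1]
          constructor <;> omega
    by_cases hin : Sh 0 N (g - m) ∧ Sh 0 N (g + un i - m) ∧ Sh 0 N (g + un i + un j - m) ∧
        Sh 0 N (g + un j - m)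
    · obtain ⟨a, b, c, e⟩ := hin
      have a' := (h1 _ c0).resolve_right fun h => h.1 a
      have b' := (h1 _ c1).resolve_right fun h => h.1 b
      have c' := (h1 _ c2).resolve_right fun h => h.1 c
      have e' := (h1 _ c3).resolve_right fun h => h.1 e
      rw [a'.2, b'.2, c'.2, e'.2, show g + un i - m = (g - m) + un i by abel,
        show g + un i + un j - m = (g - m) + un i + un j by abel,
        show g + un j - m = (g - m) + un j by abel]
      exact in_quad N (g - m) i j hij
    by_cases hout : ¬ Sh 0 N (g - m) ∧ ¬ Sh 0 N (g + un i - m) ∧ ¬ Sh 0 N (g + un i + un j - m) ∧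
        ¬ Sh 0 N (g + un j - m)
    · obtain ⟨a, b, c, e⟩ := hout
      have a' := (h1 _ c0).resolve_left fun h => a h.1
      have b' := (h1 _ c1).resolve_left fun h => b h.1
      have c' := (h1 _ c2).resolve_left fun h => c h.1
      have e' := (h1 _ c3).resolve_left fun h => e h.1
      rw [a'.2.1, b'.2.1, c'.2.1, e'.2.1, show g + un i - m' = (g - m') + un i by abel,
        show g + un i + un j - m' = (g - m') + un i + un j by abel,
        show g + un j - m' = (g - m') + un j by abel]
      exact in_quad N' (g - m') i j hij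
    have hq : ∃ q : Gd d, (∀ k, g k ≤ q k ∧ q k ≤ g k + 1) ∧ ¬ Sh 0 N (q - m) := by
      by_contra hcon
      push Not at hcon
      exact hin ⟨hcon _ c0, hcon _ c1, hcon _ c2, hcon _ c3⟩
    obtain ⟨q, hq1, hq2⟩ := hq
    have key : ∀ p : Gd d, (∀ k, g k ≤ p k ∧ p k ≤ g k + 1) →
        ((y p).1 = 2 ∨ (y p).1 = 2 + 1) ∧ ((y p).1 = 2 ↔ Sh 0 N (p - m)) := by
      intro p hp
      rcases h1 p hp with ⟨a1, _⟩ | ⟨a1, _, a3⟩
      · have := h2 p q hp hq1 a1 hq2
        exact ⟨Or.inl this, ⟨fun _ => a1, fun _ => this⟩⟩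
      · refine ⟨Or.inr (by rw [a3]; decide), ⟨fun h => ?_, fun h => absurd h a1⟩⟩
        rw [a3] at h
        exact absurd h.symm z20
    refine ⟨2, (key _ c0).1, (key _ c1).1, (key _ c2).1, (key _ c3).1, ?_, ?_⟩
    · intro u v
      obtain ⟨w1, w2⟩ := s1 ((key _ c0).2.1 u) ((key _ c2).2.1 v)
      exact ⟨(key _ c1).2.2 w1, (key _ c3).2.2 w2⟩
    · intro u v
      obtain ⟨w1, w2⟩ := s2 ((key _ c1).2.1 u) ((key _ c3).2.1 v)
      exact ⟨(key _ c0).2.2 w1, (key _ c2).2.2 w2⟩

end NI
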