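import Pool.Agent.Helper33.NI.Isl

/-!
# NI-10: first islands

`exists_first`: `cover` and `Nat.find`.  `first_uniq`: the sides are equal (minimality); two islands with the same side containing the same cell are equal (`nest`: `Deep` is impossible for `N = N'` if `d ≥ 1`
(`m' i + 3 ≤ m i`, `m i + N + 3 ≤ m' i + N`), for `d = 0` all `m` are equal; `Apart` contradicts the common cell).
`key`: let `|g i - g' i| ≤ 1` for all `i`.  WLOG `N ≤ N'`.  `nest`: equal: done.  `Apart`: impossible as `g` is in the first cube, `g'` in the second one, and they are adjacent.  `Deep`: then `g'` is not in the cube `(N, m)`: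
otherwise minimality of `N'` gives `N' ≤ N`, so `N = N'` and `Deep` is impossible (`d ≥ 1`; for `d = 0` `m = m'` and `N = N'`: first alternative).
-/

set_option autoImplicit false

namespace NI

open EB

variable {d : ℕ} {J : ℕ → Gd d → Prop}

omit J in
private theorem deep_self {N : ℕ} {m m' : Gd d} (h : Deep N m N m') : m = m' := by
  funext i
  have h1 := h i
  exfalso
  omega

theorem Isl.exists_first (hJ : Isl J) (g : Gd d) : ∃ N m, First J g N m := by
  classical
  have h : ∃ N, ∃ m, J N m ∧ Sh 0 N (g - m) := hJ.cover g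
  obtain ⟨m, hm, hs⟩ := Nat.find_spec h
  exact ⟨Nat.find h, m, hm, hs, fun N' m' h1 h2 => Nat.find_min' h ⟨m', h1, h2⟩⟩

theorem Isl.first_uniq (hJ : Isl J) {g : Gd d} {N N' : ℕ} {m m' : Gd d} (h : First J g N m)
    (h' : First J g N' m') : N = N' ∧ m = m' := by
  have hN : N = N' := le_antisymm (h.2.2 N' m' h'.1 h'.2.1) (h'.2.2 N m h.1 h.2.1)
  subst hN
  refine ⟨rfl, ?_⟩
  rcases hJ.nest N m N m' h.1 h'.1 le_rfl with h1 | h1 | h1
  · exact h1.2
  · exact deep_self h1
  · obtain ⟨i, hi⟩ := h1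
    have h2 := h.2.1 i
    have h3 := h'.2.1 i
    simp only [Pi.sub_apply] at h2 h3
    exfalso
    omega

private theorem key_aux (hJ : Isl J) {g g' : Gd d} (hg : ∀ i, |g i - g' i| ≤ 1) {N N' : ℕ}
    {m m' : Gd d} (h : First J g N m) (h' : First J g' N' m') (hle : N ≤ N') :
    (N = N' ∧ m = m') ∨ (¬ Sh 0 N (g' - m) ∧ Deep N m N' m') := by
  rcases hJ.nest N m N' m' h.1 h'.1 hle with h1 | h1 | h1
  · exact Or.inl h1
  · by_cases hs : Sh 0 N (g' - m)
    · have hN : N = N' := le_antisymm hle (h'.2.2 N m h.1 hs)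
      subst hN
      exact Or.inl ⟨rfl, deep_self h1⟩
    · exact Or.inr ⟨hs, h1⟩
  · obtain ⟨i, hi⟩ := h1
    have h2 := h.2.1 i
    have h3 := h'.2.1 i
    have h4 := abs_le.1 (hg i)
    simp only [Pi.sub_apply] at h2 h3
    exfalso
    omega

theorem Isl.key (hJ : Isl J) {g g' : Gd d} (hg : ∀ i, |g i - g' i| ≤ 1) {N N' : ℕ} {m m' : Gd d}
    (h : First J g N m) (h' : First J g' N' m') :
    (N = N' ∧ m = m') ∨ (¬ Sh 0 N (g' - m) ∧ Deep N m N' m') ∨ (¬ Sh 0 N' (g - m') ∧ Deep N' m' N m) := by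
  rcases le_total N N' with hle | hle
  · rcases key_aux hJ hg h h' hle with h1 | h1
    · exact Or.inl h1
    · exact Or.inr (Or.inl h1)
  · have hg' : ∀ i, |g' i - g i| ≤ 1 := fun i => by
      rw [abs_sub_comm]
      exact hg i
    rcases key_aux hJ hg' h' h hle with h1 | h1
    · exact Or.inl ⟨h1.1.symm, h1.2.symm⟩
    · exact Or.inr (Or.inr h1)

end NI
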