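import Pool.Agent.Helper33.NI.Defs

/-!
# NI-30: a measure with the null sets of all translates

`μ' = Measure.sum fun g => (w g) • μ.map (a.T g)` with `w g = 2⁻¹ ^ (encode g + 1)` (`Encodable`/`Countable (Gd d)`), `∑ w g ≤ 1`, so `μ' univ ≤ 1`.  `μ' E = 0` implies `w g * μ (a.T g ⁻¹' E) = 0` for all `g`.
-/

set_option autoImplicit false

namespace NI

open EB MeasureTheory

theorem quasi {d : ℕ} {X : Type} [MeasurableSpace X] (a : FreeAct d X) (μ : Measure X)
    [IsProbabilityMeasure μ] : ∃ μ' : Measure X, IsFiniteMeasure μ' ∧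
      ∀ E, MeasurableSet E → μ' E = 0 → ∀ g, μ {x | a.T g x ∈ E} = 0 := by
  obtain ⟨w, hw, hsum⟩ := ENNReal.exists_pos_sum_of_countable' (ε := 1) one_ne_zero (Gd d)
  refine ⟨Measure.sum fun g => w g • μ.map (a.T g), ⟨?_⟩, fun E hE h0 g => ?_⟩
  · rw [Measure.sum_apply _ MeasurableSet.univ]
    refine lt_of_le_of_lt (ENNReal.tsum_le_tsum fun g => ?_) (hsum.trans ENNReal.one_lt_top)
    rw [Measure.smul_apply, Measure.map_apply (a.meas g) MeasurableSet.univ, Set.preimage_univ,
      measure_univ, smul_eq_mul, mul_one]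
  · rw [Measure.sum_apply _ hE, ENNReal.tsum_eq_zero] at h0
    have h1 := h0 g
    rw [Measure.smul_apply, Measure.map_apply (a.meas g) hE, smul_eq_mul, mul_eq_zero] at h1
    rcases h1 with h1 | h1
    · exact absurd h1 (hw g).ne'
    · exact h1

end NI
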