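import Pool.Agent.Helper33.NI.LabX
import Pool.Agent.Helper33.NI.GridB

/-!
# NI-15: solutions from islands

`lab_space`, `sol_iff`: for `x : C` the labelling `g ↦ F (T g x)` satisfies `Conf`; `allowed_of_conf`.
-/

set_option autoImplicit false

namespace NI

open EB

theorem sol_of_isl {d : ℕ} {X : Type} [MeasurableSpace X] (a : FreeAct d X) (I : ℕ → Set X)
    (hI : ∀ N, MeasurableSet (I N)) (C : Set X) (hC : Inv a C) (h : ∀ x ∈ C, Isl (Jx a I x)) :
    BorelSolOn a lcl C := by
  obtain ⟨F, hF, hconf⟩ := lab_space a I hI C hC h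
  refine ⟨F, hF, ?_⟩
  rw [sol_iff a lcl C hC F]
  intro x
  exact allowed_of_conf _ (hconf x)

end NI
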