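import Pool.Agent.Helper33.NI.Cover
import Pool.Agent.Helper33.NI.Quasi
import Pool.Agent.Helper33.NI.SolIsl
import Pool.Agent.Helper27.EB.Bern

/-!
# NI-31: the measurable solution

`FP d` is a standard Borel space (`FP_meas`).  `μ'` from `quasi`, `N`, `Z` from `exists_mk` for `μ'`.  `D = {x | ∃ n p, Sh 0 n p ∧ T (-p) x ∈ Ac n}` is measurable, `μ' Dᶜ = 0` (`good_ae`).  `C = {x | ∀ g, T g x ∈ D}`: measurable, invariant, `μ Cᶜ = 0` (`quasi` with `E = Dᶜ`, countable union).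
`Isl (Jx a (Ac ..) x)` for `x ∈ C`: `acc_nest`; cover: `T g x ∈ D`: `n`, `p`, `m = g - p`: `T m x = T (-p) (T g x)`.  `sol_of_isl`.
-/

set_option autoImplicit false

namespace NI

open EB MeasureTheory

theorem meas_sol (d : ℕ) : MeasSol d lcl := by
  intro μ hμ
  have hst : StandardBorelSpace (FP d) := (FP_meas d).standardBorel
  obtain ⟨μ', hμ', hq⟩ := quasi (fshift d) μ
  obtain ⟨N, Z, hM⟩ := exists_mk (fshift d) μ'
  have hAc := Ac_meas (fshift d) N Z hM.meas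
  have hD : MeasurableSet {x : FP d | ∃ n p, Sh 0 n p ∧ (fshift d).T (-p) x ∈ Ac (fshift d) N Z n} := by
    have h1 : {x : FP d | ∃ n p, Sh 0 n p ∧ (fshift d).T (-p) x ∈ Ac (fshift d) N Z n} =
        ⋃ n : ℕ, ⋃ p : Gd d, ⋃ _ : Sh 0 n p, (fshift d).T (-p) ⁻¹' Ac (fshift d) N Z n := by
      ext x
      simp
    rw [h1]
    exact MeasurableSet.iUnion fun n => MeasurableSet.iUnion fun p => MeasurableSet.iUnion fun _ =>
      (fshift d).meas (-p) (hAc n)
  have hae := good_ae (fshift d) μ' N Z hM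
  obtain ⟨D, hDdef⟩ : ∃ D : Set (FP d),
      D = {x : FP d | ∃ n p, Sh 0 n p ∧ (fshift d).T (-p) x ∈ Ac (fshift d) N Z n} := ⟨_, rfl⟩
  rw [← hDdef] at hD
  have hD0 : μ' Dᶜ = 0 := by
    rw [hDdef]
    exact hae
  have hC : MeasurableSet {x : FP d | ∀ g, (fshift d).T g x ∈ D} := by
    have h1 : {x : FP d | ∀ g, (fshift d).T g x ∈ D} = ⋂ g : Gd d, (fshift d).T g ⁻¹' D := by
      ext x
      simp
    rw [h1]
    exact MeasurableSet.iInter fun g => (fshift d).meas g hD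
  have hinv : Inv (fshift d) {x : FP d | ∀ g, (fshift d).T g x ∈ D} := by
    intro g x hx h
    rw [← (fshift d).add]
    exact hx (h + g)
  refine ⟨{x : FP d | ∀ g, (fshift d).T g x ∈ D}, hC, hinv, ?_, ?_⟩
  · have h1 : {x : FP d | ∀ g, (fshift d).T g x ∈ D}ᶜ = ⋃ g : Gd d, {x | (fshift d).T g x ∈ Dᶜ} := by
      ext x
      simp
    rw [h1]
    exact measure_iUnion_null fun g => hq Dᶜ hD.compl hD0 g
  · refine sol_of_isl (fshift d) (Ac (fshift d) N Z) hAc _ hinv fun x hx => ?_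
    refine ⟨fun n m n' m' h1 h2 h3 => acc_nest (fshift d) μ' N Z hM x n n' m m' h1 h2 h3, fun g => ?_⟩
    have h1 := hx g
    rw [hDdef] at h1
    obtain ⟨n, p, hp, hx'⟩ := h1
    refine ⟨n, g - p, ?_, ?_⟩
    · show (fshift d).T (g - p) x ∈ Ac (fshift d) N Z n
      rw [← (fshift d).add] at hx'
      rwa [sub_eq_add_neg, add_comm]
    · rwa [sub_sub_cancel]

end NI
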