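import Pool.Agent.Helper33.NI.Seq

/-!
# NI-28: the accepted islands are nested

`Ac_meas`: countable unions and intersections.
`acc_nest`: `N` is strictly increasing (`Mk.lt`), so the index `k` is determined by the side, `k ≤ l`.  For `k < l` by definition (translate: `T m x ∈ Z k`, `T m' x = T (m' - m) (T m x) ∈ Z l`; `Deep (N k) 0 (N l) (m' - m)` is `Deep (N k) m (N l) m'`).  For `k = l` by `Disc`: `m = m'` or
`|m' i - m i| > N k` for some `i`: `Apart`.
-/

set_option autoImplicit false

namespace NI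

open EB

open MeasureTheory

/-- the corners of the accepted islands with side `n` -/
def Ac {d : ℕ} {X : Type} [MeasurableSpace X] (a : FreeAct d X) (N : ℕ → ℕ) (Z : ℕ → Set X) (n : ℕ) :
    Set X :=
  {x | ∃ k, N k = n ∧ x ∈ Z k ∧ ∀ l, k < l → ∀ g, a.T g x ∈ Z l →
    Deep (N k) 0 (N l) g ∨ Apart (N k) 0 (N l) g}

theorem Ac_meas {d : ℕ} {X : Type} [MeasurableSpace X] (a : FreeAct d X) (N : ℕ → ℕ) (Z : ℕ → Set X)
    (hZ : ∀ k, MeasurableSet (Z k)) (n : ℕ) : MeasurableSet (Ac a N Z n) := by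
  have h : Ac a N Z n = ⋃ k : ℕ, ({_x : X | N k = n} ∩ (Z k ∩ ⋂ l : ℕ, ⋂ g : Gd d,
      ({_x : X | ¬ k < l} ∪ (a.T g ⁻¹' (Z l))ᶜ ∪
        {_x : X | Deep (N k) 0 (N l) g ∨ Apart (N k) 0 (N l) g}))) := by
    ext x
    simp only [Ac, Set.mem_ofPred_eq, Set.mem_iUnion, Set.mem_inter_iff, Set.mem_iInter,
      Set.mem_union, Set.mem_compl_iff, Set.mem_preimage]
    constructor
    · rintro ⟨k, h1, h2, h3⟩
      refine ⟨k, h1, h2, fun l g => ?_⟩
      by_cases h4 : k < l
      · by_cases h5 : a.T g x ∈ Z l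
        · exact Or.inr (h3 l h4 g h5)
        · exact Or.inl (Or.inr h5)
      · exact Or.inl (Or.inl h4)
    · rintro ⟨k, h1, h2, h3⟩
      refine ⟨k, h1, h2, fun l h4 g h5 => ?_⟩
      rcases h3 l g with (h6 | h6) | h6
      · exact absurd h4 h6
      · exact absurd h5 h6
      · exact h6
  rw [h]
  refine MeasurableSet.iUnion fun k => (MeasurableSet.const _).inter ((hZ k).inter
    (MeasurableSet.iInter fun l => MeasurableSet.iInter fun g => ?_))
  exact ((MeasurableSet.const _).union ((a.meas g) (hZ l)).compl).union (MeasurableSet.const _)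

theorem acc_nest {d : ℕ} {X : Type} [MeasurableSpace X] (a : FreeAct d X) (μ : Measure X) (N : ℕ → ℕ)
    (Z : ℕ → Set X) (h : Mk a μ N Z) (x : X) (n n' : ℕ) (m m' : Gd d) (h1 : Jx a (Ac a N Z) x n m)
    (h2 : Jx a (Ac a N Z) x n' m') (h3 : n ≤ n') :
    (n = n' ∧ m = m') ∨ Deep n m n' m' ∨ Apart n m n' m' := by
  obtain ⟨k, hk, h4, h5⟩ := h1
  obtain ⟨l, hl, h6, -⟩ := h2
  have hmono : StrictMono N := strictMono_nat_of_lt_succ fun k => by
    have := h.lt k
    omega
  have hT : a.T (m' - m) (a.T m x) = a.T m' x := by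
    rw [← a.add, sub_add_cancel]
  have hkl : k ≤ l := by
    rw [← hmono.le_iff_le, hk, hl]
    exact h3
  rcases hkl.lt_or_eq with h7 | h7
  · right
    rcases h5 l h7 (m' - m) (by rw [hT]; exact h6) with h8 | h8
    · left
      intro i
      have h9 := h8 i
      simp only [Pi.zero_apply, Pi.sub_apply] at h9
      rw [hk, hl] at h9
      omega
    · right
      obtain ⟨i, h9⟩ := h8
      refine ⟨i, ?_⟩
      simp only [Pi.zero_apply, Pi.sub_apply] at h9
      rw [hk, hl] at h9
      omega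
  · subst h7
    have hn : n = n' := by rw [← hk, ← hl]
    by_cases hm : m = m'
    · exact Or.inl ⟨hn, hm⟩
    · right
      right
      by_contra h8
      have h9 : nb (N k) (m' - m) := by
        intro i
        by_contra h10
        apply h8
        refine ⟨i, ?_⟩
        simp only [Pi.sub_apply] at h10
        rw [abs_le] at h10
        omega
      exact h.disc k _ h4 (m' - m) h9 (sub_ne_zero.mpr (Ne.symm hm)) (by rw [hT]; exact h6)

end NI
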