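import Mathlib

/-!
# NI-21: averaging

`∑ t, ν (A t) = ∫⁻ x, #{t | x ∈ A t} ∂ν ≥ k ν univ` (`lintegral_finset_sum`, indicators), `∑ t, μ (B t) ≤ l μ univ`.  Work with real numbers (`ENNReal.toReal`, all finite).  `α = ν univ`, `β = μ univ`, `n = Fintype.card ι`, `a t = ν (A t) ≤ α`, `b t = μ (B t)`:
`∑ a ≥ k α`, `∑ b ≤ l β`.  Cases: `k = 0` trivial (any `t`; both claims read `0 ≤ ..`).  `α = 0`: choose `t` with `n b t ≤ l β` (average), then `k b t ≤ n b t ≤ l β` as `k ≤ n` (or `X` is empty: then `β = 0`).  `l β = 0`: all `b t = 0`; choose `t` with `n a t ≥ k α`.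
Otherwise `∑ (2 l β a t - k α b t) ≥ 2 l k α β - k l α β = k l α β`, so some `t` has `n (2 l β a t - k α b t) ≥ k l α β`, so `2 n a t ≥ k α` and `k α b t ≤ 2 l β a t ≤ 2 l β α`, so `k b t ≤ 2 l β`.
-/

set_option autoImplicit false

namespace NI

open MeasureTheory

private theorem Avg_count {X : Type} {ι : Type} [Fintype ι] (A : ι → Set X) (x : X) :
    ∑ t, (A t).indicator (fun _ => (1 : ENNReal)) x = (Nat.card {t // x ∈ A t} : ENNReal) := by
  classical
  rw [Nat.card_eq_fintype_card, Fintype.card_subtype]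
  simp only [Set.indicator_apply]
  rw [Finset.sum_ite]
  simp

private theorem Avg_sum {X : Type} [MeasurableSpace X] {ι : Type} [Fintype ι] (ν : Measure X)
    (A : ι → Set X) (hA : ∀ t, MeasurableSet (A t)) :
    ∑ t, ν (A t) = ∫⁻ x, (Nat.card {t // x ∈ A t} : ENNReal) ∂ν := by
  simp_rw [← Avg_count]
  rw [lintegral_finsetSum]
  · refine Finset.sum_congr rfl fun t _ => ?_
    rw [lintegral_indicator_const (hA t), one_mul]
  · intro t _
    exact measurable_const.indicator (hA t)

/-- the averaging argument for real numbers -/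
private theorem Avg_real {ι : Type} [Fintype ι] [Nonempty ι] (a b : ι → ℝ) (α β k l : ℝ)
    (ha0 : ∀ t, 0 ≤ a t) (hb0 : ∀ t, 0 ≤ b t) (ha : ∀ t, a t ≤ α) (hα : 0 ≤ α) (hβ : 0 ≤ β)
    (hk : 0 ≤ k) (hl : 0 ≤ l) (hkn : β ≠ 0 → k ≤ Fintype.card ι) (h1 : k * α ≤ ∑ t, a t)
    (h2 : ∑ t, b t ≤ l * β) :
    ∃ t, k * α ≤ 2 * Fintype.card ι * a t ∧ k * b t ≤ 2 * l * β := by
  have hn : (0 : ℝ) < Fintype.card ι := by exact_mod_cast Fintype.card_pos
  have avg : ∀ (f : ι → ℝ) (c : ℝ), c ≤ ∑ t, f t → ∃ t, c ≤ Fintype.card ι * f t := by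
    intro f c hc
    by_contra hcon
    push Not at hcon
    have h3 : ∑ t, (Fintype.card ι : ℝ) * f t < ∑ _t : ι, c :=
      Finset.sum_lt_sum_of_nonempty Finset.univ_nonempty fun t _ => hcon t
    rw [← Finset.mul_sum, Finset.sum_const, Finset.card_univ, nsmul_eq_mul] at h3
    have h4 := lt_of_mul_lt_mul_left h3 hn.le
    linarith
  rcases eq_or_lt_of_le hk with hk | hk
  · obtain ⟨t⟩ := (inferInstance : Nonempty ι)
    refine ⟨t, ?_, ?_⟩
    · rw [← hk, zero_mul]
      have := ha0 t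
      positivity
    · rw [← hk, zero_mul]
      positivity
  rcases eq_or_lt_of_le hα with hα | hα
  · obtain ⟨t, ht⟩ := avg (fun t => - b t) (-(l * β)) (by
      rw [Finset.sum_neg_distrib]
      linarith)
    refine ⟨t, ?_, ?_⟩
    · rw [← hα, mul_zero]
      have := ha0 t
      positivity
    · by_cases hb : β = 0
      · rw [hb, mul_zero] at ht ⊢
        have h3 : b t ≤ 0 := by
          by_contra hcon
          push Not at hcon
          have : 0 < (Fintype.card ι : ℝ) * b t := mul_pos hn hcon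
          simp only [mul_neg] at ht
          linarith
        nlinarith [hb0 t]
      · have h3 := hkn hb
        have h4 : k * b t ≤ Fintype.card ι * b t := mul_le_mul_of_nonneg_right h3 (hb0 t)
        simp only [mul_neg] at ht
        have h5 : 0 ≤ l * β := by positivity
        linarith
  have hlβ : 0 ≤ l * β := by positivity
  rcases eq_or_lt_of_le hlβ with hlβ | hlβ
  · obtain ⟨t, ht⟩ := avg a (k * α) h1
    refine ⟨t, ?_, ?_⟩
    · have := ha0 t
      have h3 : 0 ≤ (Fintype.card ι : ℝ) * a t := by positivity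
      linarith
    · have h3 : b t ≤ ∑ t, b t := Finset.single_le_sum (fun i _ => hb0 i) (Finset.mem_univ t)
      have h4 : b t ≤ 0 := by linarith
      have h5 : k * b t ≤ 0 := mul_nonpos_of_nonneg_of_nonpos hk.le h4
      linarith
  · obtain ⟨t, ht⟩ := avg (fun t => 2 * (l * β) * a t - k * α * b t) (k * (l * β) * α) (by
      rw [Finset.sum_sub_distrib, ← Finset.mul_sum, ← Finset.mul_sum]
      have h3 : 2 * (l * β) * (k * α) ≤ 2 * (l * β) * ∑ t, a t :=
        mul_le_mul_of_nonneg_left h1 (by positivity)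
      have h4 : k * α * ∑ t, b t ≤ k * α * (l * β) :=
        mul_le_mul_of_nonneg_left h2 (by positivity)
      linarith)
    refine ⟨t, ?_, ?_⟩
    · have h3 : 0 ≤ (Fintype.card ι : ℝ) * (k * α * b t) := by
        have := hb0 t
        positivity
      have h4 : (l * β) * (k * α) ≤ (l * β) * (2 * Fintype.card ι * a t) := by
        nlinarith
      exact le_of_mul_le_mul_left h4 hlβ
    · have h3 : 0 < k * (l * β) * α := by positivity
      have h4 : 0 ≤ 2 * (l * β) * a t - k * α * b t := by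
        by_contra hcon
        push Not at hcon
        have := mul_neg_of_pos_of_neg hn hcon
        linarith
      have h5 : 2 * (l * β) * a t ≤ 2 * (l * β) * α :=
        mul_le_mul_of_nonneg_left (ha t) (by positivity)
      have h6 : α * (k * b t) ≤ α * (2 * l * β) := by
        nlinarith
      exact le_of_mul_le_mul_left h6 hα

theorem avg {X : Type} [MeasurableSpace X] {ι : Type} [Fintype ι] [Nonempty ι] (ν μ : Measure X)
    [IsFiniteMeasure ν] [IsFiniteMeasure μ] (A B : ι → Set X) (hA : ∀ t, MeasurableSet (A t))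
    (hB : ∀ t, MeasurableSet (B t)) (k l : ℕ) (hk : ∀ x, k ≤ Nat.card {t // x ∈ A t})
    (hl : ∀ x, Nat.card {t // x ∈ B t} ≤ l) :
    ∃ t, (k : ENNReal) * ν Set.univ ≤ 2 * Fintype.card ι * ν (A t) ∧
      (k : ENNReal) * μ (B t) ≤ 2 * l * μ Set.univ := by
  have h1 : (k : ENNReal) * ν Set.univ ≤ ∑ t, ν (A t) := by
    rw [Avg_sum ν A hA, ← lintegral_const]
    exact lintegral_mono fun x => Nat.cast_le.2 (hk x)
  have h2 : ∑ t, μ (B t) ≤ (l : ENNReal) * μ Set.univ := by
    rw [Avg_sum μ B hB, ← lintegral_const]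
    exact lintegral_mono fun x => Nat.cast_le.2 (hl x)
  have hfa : ∀ t, ν (A t) ≠ ⊤ := fun t => measure_ne_top _ _
  have hfb : ∀ t, μ (B t) ≠ ⊤ := fun t => measure_ne_top _ _
  have hfα : ν Set.univ ≠ ⊤ := measure_ne_top _ _
  have hfβ : μ Set.univ ≠ ⊤ := measure_ne_top _ _
  have h1' : (k : ℝ) * (ν Set.univ).toReal ≤ ∑ t, (ν (A t)).toReal := by
    rw [← ENNReal.toReal_sum fun t _ => hfa t, ← ENNReal.toReal_natCast, ← ENNReal.toReal_mul]
    exact ENNReal.toReal_mono (ENNReal.sum_ne_top.2 fun t _ => hfa t) h1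
  have h2' : ∑ t, (μ (B t)).toReal ≤ (l : ℝ) * (μ Set.univ).toReal := by
    rw [← ENNReal.toReal_sum fun t _ => hfb t, ← ENNReal.toReal_natCast, ← ENNReal.toReal_mul]
    exact ENNReal.toReal_mono (ENNReal.mul_ne_top (ENNReal.natCast_ne_top _) hfβ) h2
  obtain ⟨t, ht1, ht2⟩ := Avg_real (fun t => (ν (A t)).toReal) (fun t => (μ (B t)).toReal)
    (ν Set.univ).toReal (μ Set.univ).toReal k l (fun t => ENNReal.toReal_nonneg)
    (fun t => ENNReal.toReal_nonneg)
    (fun t => ENNReal.toReal_mono hfα (measure_mono (Set.subset_univ _)))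
    ENNReal.toReal_nonneg ENNReal.toReal_nonneg (Nat.cast_nonneg _) (Nat.cast_nonneg _)
    (fun hβ => by
      have : Nonempty X := by
        by_contra hX
        rw [not_nonempty_iff] at hX
        apply hβ
        rw [Set.univ_eq_empty_iff.2 hX, measure_empty, ENNReal.toReal_zero]
      obtain ⟨x⟩ := this
      have h3 : Nat.card {t // x ∈ A t} ≤ Fintype.card ι := by
        classical
        rw [Nat.card_eq_fintype_card]
        exact Fintype.card_subtype_le _
      exact_mod_cast (hk x).trans h3) h1' h2'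
  refine ⟨t, ?_, ?_⟩
  · have h3 : ((k : ENNReal) * ν Set.univ).toReal ≤ (2 * Fintype.card ι * ν (A t)).toReal := by
      simpa [ENNReal.toReal_mul] using ht1
    rwa [ENNReal.toReal_le_toReal (ENNReal.mul_ne_top (ENNReal.natCast_ne_top _) hfα)
      (ENNReal.mul_ne_top (ENNReal.mul_ne_top (by simp) (ENNReal.natCast_ne_top _)) (hfa t))] at h3
  · have h3 : ((k : ENNReal) * μ (B t)).toReal ≤ (2 * l * μ Set.univ).toReal := by
      simpa [ENNReal.toReal_mul] using ht2
    rwa [ENNReal.toReal_le_toReal (ENNReal.mul_ne_top (ENNReal.natCast_ne_top _) (hfb t))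
      (ENNReal.mul_ne_top (ENNReal.mul_ne_top (by simp) (ENNReal.natCast_ne_top _)) hfβ)] at h3

end NI
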