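import Pool.Agent.Helper33.NI.GadRes
import Pool.Agent.Helper33.NI.GadNest
import Pool.Agent.Helper33.NI.SolIsl

/-!
# NI-20: the Baire-measurable solution

`C = {x | ∀ g, ∃ N m, Gad x.1 N m ∧ Sh 0 N (g - m)}`; `I N = {x : FP d | Gad x.1 N 0}`.  `Gad (sh g x) N m ↔ Gad x N (m + g)` (`sh g x h = x (h + g)`), so `C` is invariant and `Jx (fshift d) I x N m ↔ Gad x.1 N m`.  Measurable: `gad_open`
(`Om d` has the product σ-algebra, which is the Borel σ-algebra: `BorelSpace` instance for countable products; `measurable_subtype_coe`).  `gad_nest`, `sol_of_isl`, `gad_resid`.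
-/

set_option autoImplicit false

namespace NI

open EB

private theorem gad_sh {d : ℕ} (g : Gd d) (x : Om d) (N : ℕ) (m : Gd d) :
    Gad (sh g x) N m ↔ Gad x N (m + g) := by
  have e : ∀ p : Gd d, sh g x (m + p) = x (m + g + p) := by
    intro p
    unfold sh
    congr 1
    abel
  unfold Gad
  simp only [e]

private theorem inv_cov (d : ℕ) :
    Inv (fshift d) {x : FP d | ∀ g, ∃ N m, Gad x.1 N m ∧ Sh 0 N (g - m)} := by
  intro g x hx h
  obtain ⟨N, m, h1, h2⟩ := hx (h + g)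
  refine ⟨N, m - g, ?_, ?_⟩
  · change Gad (sh g x.1) N (m - g)
    rw [gad_sh, sub_add_cancel]
    exact h1
  · have e : h - (m - g) = h + g - m := by abel
    rw [e]
    exact h2

theorem baire_sol (d : ℕ) (hd : 2 ≤ d) : BaireSol d lcl := by
  have hG : ∀ (N : ℕ) (m : Gd d), MeasurableSet {x : FP d | Gad x.1 N m} := fun N m =>
    measurable_subtype_coe (gad_open N m).measurableSet
  refine ⟨{x : FP d | ∀ g, ∃ N m, Gad x.1 N m ∧ Sh 0 N (g - m)}, ?_, inv_cov d, gad_resid d, ?_⟩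
  · have e : {x : FP d | ∀ g, ∃ N m, Gad x.1 N m ∧ Sh 0 N (g - m)} =
        ⋂ g : Gd d, ⋃ (N : ℕ), ⋃ (m : Gd d), ({x : FP d | Gad x.1 N m} ∩ {_x | Sh 0 N (g - m)}) := by
      ext x
      simp only [Set.mem_ofPred_eq, Set.mem_iUnion, Set.mem_inter_iff, Set.mem_iInter]
    rw [e]
    exact MeasurableSet.iInter fun g => MeasurableSet.iUnion fun N => MeasurableSet.iUnion fun m =>
      (hG N m).inter (MeasurableSet.const _)
  · refine sol_of_isl (fshift d) (fun N => {x : FP d | Gad x.1 N 0}) (fun N => hG N 0) _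
      (inv_cov d) ?_
    intro x hx
    have hJ : ∀ N m, Jx (fshift d) (fun N => {x : FP d | Gad x.1 N 0}) x N m ↔ Gad x.1 N m := by
      intro N m
      change Gad (sh m x.1) N 0 ↔ Gad x.1 N m
      rw [gad_sh, zero_add]
    refine ⟨fun N m N' m' h h' hN => ?_, fun g => ?_⟩
    · exact gad_nest hd x.1 N N' m m' ((hJ N m).1 h) ((hJ N' m').1 h') hN
    · obtain ⟨N, m, h1, h2⟩ := hx g
      exact ⟨N, m, (hJ N m).2 h1, h2⟩

end NI
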