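import Pool.Agent.Helper33.NI.Defs

/-!
# NI: the core (to be replaced by the files of helper24)
-/

set_option autoImplicit false

namespace NI

open EB

theorem no_conf {d : ℕ} (hd : 2 ≤ d) (y : Gd d → Lab) (h : Conf y) (hT : Toep y) (hS : Synd y) : False := by
  sorry

end NI
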