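import Pool.Agent.Helper33.NI.Isl

/-!
# NI-22: shifted markers and measurability

`Z` is a set of markers; two different markers in the same orbit have sup-distance `> N` (`Disc`).  The shifts are `off N t`, `t : Fin d → Fin (3 N)`, with coordinates in `[-2N+1, N]`.
`Cv_meas`, `Bd_meas`: countable unions over `p` of preimages (`a.meas`).  `mv_disc`: `T (-g) (T h x) = T h (T (-g) x)` (`add`, commutativity).
-/

set_option autoImplicit false

namespace NI

open EB

/-- the markers are far from each other -/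
def Disc {d : ℕ} {X : Type} [MeasurableSpace X] (a : FreeAct d X) (N : ℕ) (Z : Set X) : Prop :=
  ∀ x ∈ Z, ∀ g, nb N g → g ≠ 0 → a.T g x ∉ Z

/-- the points of the cubes with side `N` at the markers -/
def Cv {d : ℕ} {X : Type} [MeasurableSpace X] (a : FreeAct d X) (N : ℕ) (Z : Set X) : Set X :=
  {x | ∃ p, Sh 0 N p ∧ a.T (-p) x ∈ Z}

/-- the points near the boundary of a cube with side `N` at a marker -/
def Bd {d : ℕ} {X : Type} [MeasurableSpace X] (a : FreeAct d X) (s N : ℕ) (Z : Set X) : Set X :=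
  {x | ∃ p, Sh (-(s : ℤ)) N p ∧ ¬ Sh (s : ℤ) N p ∧ a.T (-p) x ∈ Z}

/-- the shifts -/
def off {d : ℕ} (N : ℕ) (t : Fin d → Fin (3 * N)) : Gd d := fun i => (t i : ℤ) - 2 * N + 1

/-- the shifted markers -/
def mv {d : ℕ} {X : Type} [MeasurableSpace X] (a : FreeAct d X) (g : Gd d) (Z : Set X) : Set X :=
  {x | a.T (-g) x ∈ Z}

theorem Cv_meas {d : ℕ} {X : Type} [MeasurableSpace X] (a : FreeAct d X) (N : ℕ) (Z : Set X)
    (hZ : MeasurableSet Z) : MeasurableSet (Cv a N Z) := by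
  have h : Cv a N Z = ⋃ p : Gd d, ⋃ _ : Sh 0 N p, a.T (-p) ⁻¹' Z := by
    ext x
    simp [Cv]
  rw [h]
  exact MeasurableSet.iUnion fun p => MeasurableSet.iUnion fun _ => a.meas (-p) hZ

theorem Bd_meas {d : ℕ} {X : Type} [MeasurableSpace X] (a : FreeAct d X) (s N : ℕ) (Z : Set X)
    (hZ : MeasurableSet Z) : MeasurableSet (Bd a s N Z) := by
  have h : Bd a s N Z = ⋃ p : Gd d, ⋃ _ : Sh (-(s : ℤ)) N p ∧ ¬ Sh (s : ℤ) N p, a.T (-p) ⁻¹' Z := by
    ext x
    simp [Bd, and_assoc]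
  rw [h]
  exact MeasurableSet.iUnion fun p => MeasurableSet.iUnion fun _ => a.meas (-p) hZ

theorem mv_meas {d : ℕ} {X : Type} [MeasurableSpace X] (a : FreeAct d X) (g : Gd d) (Z : Set X)
    (hZ : MeasurableSet Z) : MeasurableSet (mv a g Z) := a.meas (-g) hZ

theorem mv_disc {d : ℕ} {X : Type} [MeasurableSpace X] (a : FreeAct d X) (N : ℕ) (g : Gd d) (Z : Set X)
    (hZ : Disc a N Z) : Disc a N (mv a g Z) := by
  intro x hx h hn h0 hm
  refine hZ _ hx h hn h0 ?_
  have h1 : a.T (-g) (a.T h x) ∈ Z := hm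
  rwa [← a.add, add_comm, a.add] at h1

end NI
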