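import Pool.Agent.Helper33.NI.Count

/-!
# NI-24: counting bad shifts

If `t` is bad there is `p` with `Sh (-s) N p`, not `Sh s N p`, `T (-p - off N t) x ∈ Z`.  Put `g = -p - off N t`, `|g i| ≤ 4 N` (`s ≤ N`) and for some `i`: `p i = - g i - off N t i ∈ [-s, s) ∪ [N - s, N + s)`.  For fixed `g` and `i` there are at most
`4 s` values of `t i`, so `4 s (3 N) ^ (d - 1)` values of `t`.  The number of `g` with `|g i| ≤ 4 N` for all `i` and `T g x ∈ Z` is at most `9 ^ d`: `g ↦ (fun i => (g i + 4 N) / N)` is injective on them with values in `{0, .., 8}`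
(equal images: `|g i - g' i| < N`, so `g = g'` by `Disc` at `T g x`).  Total `9 ^ d * d * (4 s (3 N) ^ (d - 1))`.  (For `N = 0` or `d = 0` the set of bad `t` is empty: for `d = 0` always `Sh s N p`; for `N = 0`, `d ≥ 1`, `Fin (3 * 0)` is empty.)
-/

set_option autoImplicit false

namespace NI

open EB

private def Cd (N s : ℕ) (c v : ℤ) : Prop :=
  (-(s : ℤ) ≤ -c - (v - 2 * N + 1) ∧ -c - (v - 2 * N + 1) < s) ∨
    ((N : ℤ) - s ≤ -c - (v - 2 * N + 1) ∧ -c - (v - 2 * N + 1) < N + s)

open Classical in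
private theorem card_Cd (N s : ℕ) (c : ℤ) :
    (Finset.univ.filter fun v : Fin (3 * N) => Cd N s c (v : ℤ)).card ≤ 4 * s := by
  have h1 : (Finset.univ.filter fun v : Fin (3 * N) => Cd N s c (v : ℤ)).card ≤
      (Finset.Ioc (-c + 2 * N - 1 - s) (-c + 2 * N - 1 + s) ∪
        Finset.Ioc (-c + 2 * N - 1 - (N + s)) (-c + 2 * N - 1 - (N - s)) : Finset ℤ).card := by
    apply Finset.card_le_card_of_injOn (fun v : Fin (3 * N) => (v : ℤ))
    · intro v hv
      have hv' : Cd N s c (v : ℤ) := by
        simpa using hv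
      simp only [Finset.coe_union, Finset.coe_Ioc, Set.mem_union, Set.mem_Ioc]
      rcases hv' with h | h
      · left
        constructor <;> linarith [h.1, h.2]
      · right
        constructor <;> linarith [h.1, h.2]
    · intro v _ w _ h
      have h' : ((v : ℕ) : ℤ) = ((w : ℕ) : ℤ) := h
      exact Fin.ext (by exact_mod_cast h')
  refine h1.trans ((Finset.card_union_le _ _).trans ?_)
  rw [Int.card_Ioc, Int.card_Ioc]
  omega

open Classical in
private theorem card_fix {d M : ℕ} (S : Finset (Fin M)) (i : Fin d) :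
    (Finset.univ.filter fun t : Fin d → Fin M => t i ∈ S).card = S.card * M ^ (d - 1) := by
  have h : (Finset.univ.filter fun t : Fin d → Fin M => t i ∈ S) =
      Fintype.piFinset (fun j => if j = i then S else Finset.univ) := by
    ext t
    simp only [Finset.mem_filter, Finset.mem_univ, true_and, Fintype.mem_piFinset]
    constructor
    · intro ht j
      by_cases hj : j = i
      · subst hj
        simpa using ht
      · simp [hj]
    · intro ht
      simpa using ht i
  rw [h, Fintype.card_piFinset]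
  rw [← Finset.mul_prod_erase Finset.univ _ (Finset.mem_univ i)]
  rw [if_pos rfl]
  congr 1
  have h2 : ∀ j ∈ Finset.univ.erase i,
      (if j = i then S else (Finset.univ : Finset (Fin M))).card = M := by
    intro j hj
    rw [if_neg (Finset.ne_of_mem_erase hj)]
    simp
  rw [Finset.prod_congr rfl h2, Finset.prod_const, Finset.card_erase_of_mem (Finset.mem_univ i)]
  simp

private def cod {d : ℕ} (N : ℕ) (g : Gd d) : Fin d → Fin 9 :=
  fun i => Fin.ofNat 9 ((g i + 4 * N) / N).toNat

private theorem cod_lt (N : ℕ) (hN : 0 < N) (u : ℤ) (hu : |u| ≤ 4 * N) :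
    0 ≤ (u + 4 * N) / N ∧ (u + 4 * N) / N < 9 := by
  have hN' : (0 : ℤ) < N := by exact_mod_cast hN
  obtain ⟨h1, h2⟩ := abs_le.mp hu
  constructor
  · apply Int.ediv_nonneg (by linarith) hN'.le
  · apply Int.ediv_lt_of_lt_mul hN'
    linarith

private theorem cod_inj {d : ℕ} {N : ℕ} (hN : 0 < N) (g g' : Gd d) (h : ∀ i, |g i| ≤ 4 * N)
    (h' : ∀ i, |g' i| ≤ 4 * N) (hc : cod N g = cod N g') : nb N (g' - g) := by
  intro i
  have hN' : (0 : ℤ) < N := by exact_mod_cast hN
  have e := congrArg Fin.val (congrFun hc i)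
  obtain ⟨a1, a2⟩ := cod_lt N hN (g i) (h i)
  obtain ⟨b1, b2⟩ := cod_lt N hN (g' i) (h' i)
  simp only [cod, Fin.ofNat] at e
  rw [Nat.mod_eq_of_lt (by omega), Nat.mod_eq_of_lt (by omega)] at e
  have e2 : (g i + 4 * N) / N = (g' i + 4 * N) / (N : ℤ) := by omega
  have m1 := Int.emod_nonneg (g i + 4 * N) hN'.ne'
  have m2 := Int.emod_lt_of_pos (g i + 4 * N) hN'
  have m3 := Int.emod_nonneg (g' i + 4 * N) hN'.ne'
  have m4 := Int.emod_lt_of_pos (g' i + 4 * N) hN'
  have d1 := Int.emod_add_mul_ediv (g i + 4 * N) N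
  have d2 := Int.emod_add_mul_ediv (g' i + 4 * N) N
  rw [e2] at d1
  rw [Pi.sub_apply, abs_le]
  constructor <;> linarith

theorem count_bad {d : ℕ} {X : Type} [MeasurableSpace X] (a : FreeAct d X) (N s : ℕ) (hs : s ≤ N)
    (Z : Set X) (hZ : Disc a N Z) (x : X) :
    Nat.card {t : Fin d → Fin (3 * N) // x ∈ Bd a s N (mv a (off N t) Z)} ≤
      9 ^ d * (d * (4 * s * (3 * N) ^ (d - 1))) := by
  classical
  let G : Set (Gd d) := {g | (∀ i, |g i| ≤ 4 * N) ∧ a.T g x ∈ Z}
  let gk : (Fin d → Fin 9) → Gd d := fun k =>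
    if h : ∃ g ∈ G, cod N g = k then h.choose else 0
  rw [Nat.card_eq_fintype_card, Fintype.card_subtype]
  have hsub : (Finset.univ.filter fun t : Fin d → Fin (3 * N) =>
      x ∈ Bd a s N (mv a (off N t) Z)) ⊆
      (Finset.univ : Finset (Fin d → Fin 9)).biUnion fun k =>
        (Finset.univ : Finset (Fin d)).biUnion fun i =>
          (Finset.univ.filter fun t : Fin d → Fin (3 * N) =>
            t i ∈ (Finset.univ.filter fun v : Fin (3 * N) => Cd N s (gk k i) (v : ℤ))) := by
    intro t ht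
    rw [Finset.mem_filter] at ht
    obtain ⟨p, hp1, hp2, hp3⟩ := ht.2
    unfold Sh at hp2
    push Not at hp2
    obtain ⟨i, hi⟩ := hp2
    have hN : 0 < N := by
      rcases Nat.eq_zero_or_pos N with h | h
      · subst h
        exact absurd (t i).2 (by simp)
      · exact h
    have hp3' : a.T (-(off N t)) (a.T (-p) x) ∈ Z := hp3
    rw [← a.add] at hp3'
    have hsZ : (s : ℤ) ≤ N := by exact_mod_cast hs
    have hG : (-(off N t) + -p) ∈ G := by
      refine ⟨fun j => ?_, hp3'⟩
      have h1 := hp1 j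
      have h2 : ((t j : ℕ) : ℤ) < 3 * N := by exact_mod_cast (t j).2
      have h3 : (0 : ℤ) ≤ ((t j : ℕ) : ℤ) := by positivity
      simp only [off, Pi.add_apply, Pi.neg_apply]
      rw [abs_le]
      constructor <;> linarith [h1.1, h1.2]
    have hex : ∃ g ∈ G, cod N g = cod N (-(off N t) + -p) := ⟨_, hG, rfl⟩
    have hgk : gk (cod N (-(off N t) + -p)) = -(off N t) + -p := by
      have h0 : gk (cod N (-(off N t) + -p)) = hex.choose := dif_pos hex
      obtain ⟨c1, c2⟩ := hex.choose_spec
      rw [h0]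
      have hnb := cod_inj hN _ _ c1.1 hG.1 c2
      by_contra hne
      apply hZ _ c1.2 _ hnb
      · intro h5
        exact hne (sub_eq_zero.mp h5).symm
      · rw [← a.add, sub_add_cancel]
        exact hp3'
    rw [Finset.mem_biUnion]
    refine ⟨cod N (-(off N t) + -p), Finset.mem_univ _, ?_⟩
    rw [Finset.mem_biUnion]
    refine ⟨i, Finset.mem_univ _, ?_⟩
    rw [Finset.mem_filter]
    refine ⟨Finset.mem_univ _, ?_⟩
    rw [Finset.mem_filter]
    refine ⟨Finset.mem_univ _, ?_⟩
    rw [hgk]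
    have h1 := hp1 i
    unfold Cd
    simp only [off, Pi.add_apply, Pi.neg_apply]
    have e : -(-(((t i : ℕ) : ℤ) - 2 * N + 1) + -p i) - (((t i : ℕ) : ℤ) - 2 * N + 1) = p i := by
      ring
    rw [e]
    by_cases h4 : (s : ℤ) ≤ p i
    · right
      exact ⟨hi h4, by linarith [h1.2]⟩
    · left
      exact ⟨h1.1, not_le.mp h4⟩
  refine (Finset.card_le_card hsub).trans ?_
  have hc : ∀ k ∈ (Finset.univ : Finset (Fin d → Fin 9)),
      ((Finset.univ : Finset (Fin d)).biUnion fun i =>
          (Finset.univ.filter fun t : Fin d → Fin (3 * N) =>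
            t i ∈ (Finset.univ.filter fun v : Fin (3 * N) => Cd N s (gk k i) (v : ℤ)))).card ≤
        d * (4 * s * (3 * N) ^ (d - 1)) := by
    intro k _
    have h6 : ∀ i ∈ (Finset.univ : Finset (Fin d)),
        (Finset.univ.filter fun t : Fin d → Fin (3 * N) =>
            t i ∈ (Finset.univ.filter fun v : Fin (3 * N) => Cd N s (gk k i) (v : ℤ))).card ≤
        4 * s * (3 * N) ^ (d - 1) := by
      intro i _
      rw [card_fix]
      exact Nat.mul_le_mul_right _ (card_Cd N s _)
    refine (Finset.card_biUnion_le_card_mul _ _ _ h6).trans ?_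
    rw [Finset.card_univ, Fintype.card_fin]
  refine (Finset.card_biUnion_le_card_mul _ _ _ hc).trans ?_
  rw [Finset.card_univ, Fintype.card_fun, Fintype.card_fin, Fintype.card_fin]

end NI
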