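import Pool.Agent.Helper33.NI.Count

/-!
# NI-23: counting good shifts

Let `nb N g`, `T g x ∈ Z`.  `x ∈ Cv a N (mv a (off N t) Z)` iff `T (-p - off N t) x ∈ Z` for some `p` with `Sh 0 N p`.  Each `t` with `Sh 0 N (-g - off N t)` is good (`p = -g - off N t`): for each coordinate `off N t i` has to be in
`(-g i - N, -g i]`, which is contained in `[-2N+1, N]`: `N` values of `t i`.  So at least `N ^ d`: inject `Fin d → Fin N` (`q ↦ t`, `off N t i = -g i - q i`, `t i = -g i - q i + 2 N - 1`).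
-/

set_option autoImplicit false

namespace NI

open EB

theorem count_cov {d : ℕ} {X : Type} [MeasurableSpace X] (a : FreeAct d X) (N : ℕ) (Z : Set X)
    (hmax : ∀ x, ∃ g, nb N g ∧ a.T g x ∈ Z) (x : X) :
    N ^ d ≤ Nat.card {t : Fin d → Fin (3 * N) // x ∈ Cv a N (mv a (off N t) Z)} := by
  classical
  obtain ⟨g, hg, hgZ⟩ := hmax x
  have hb : ∀ i, -(N : ℤ) ≤ g i ∧ g i ≤ N := fun i => abs_le.1 (hg i)
  have hr : ∀ (q : Fin d → Fin N) (i : Fin d),
      0 ≤ -g i - ((q i : ℕ) : ℤ) + 2 * N - 1 ∧ -g i - ((q i : ℕ) : ℤ) + 2 * N - 1 < 3 * N := by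
    intro q i
    have h1 := hb i
    have h2 := (q i).isLt
    omega
  let t : (Fin d → Fin N) → Fin d → Fin (3 * N) := fun q i =>
    ⟨(-g i - ((q i : ℕ) : ℤ) + 2 * N - 1).toNat, by
      have h1 := hr q i
      omega⟩
  have ht : ∀ q i, (((t q i : Fin (3 * N)) : ℕ) : ℤ) = -g i - ((q i : ℕ) : ℤ) + 2 * N - 1 :=
    fun q i => Int.toNat_of_nonneg (hr q i).1
  have hmem : ∀ q, x ∈ Cv a N (mv a (off N (t q)) Z) := by
    intro q
    refine ⟨fun i => ((q i : ℕ) : ℤ), fun i => ⟨?_, ?_⟩, ?_⟩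
    · exact Int.natCast_nonneg _
    · have h2 := (q i).isLt
      simp only [sub_zero]
      exact_mod_cast h2
    · show a.T (-off N (t q)) (a.T (-fun i => ((q i : ℕ) : ℤ)) x) ∈ Z
      rw [← a.add]
      have h3 : -off N (t q) + -(fun i => ((q i : ℕ) : ℤ)) = g := by
        funext i
        simp only [off, Pi.add_apply, Pi.neg_apply]
        rw [ht q i]
        ring
      rw [h3]
      exact hgZ
  have hinj : Function.Injective fun q : Fin d → Fin N =>
      (⟨t q, hmem q⟩ : {t : Fin d → Fin (3 * N) // x ∈ Cv a N (mv a (off N t) Z)}) := by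
    intro q q' h
    have h1 : t q = t q' := congrArg Subtype.val h
    funext i
    have h2 := ht q i
    have h3 := ht q' i
    rw [h1, h3] at h2
    apply Fin.ext
    omega
  have hc := Nat.card_le_card_of_injective _ hinj
  have h4 : Nat.card (Fin d → Fin N) = N ^ d := by
    rw [Nat.card_eq_fintype_card, Fintype.card_fun, Fintype.card_fin, Fintype.card_fin]
  rw [h4] at hc
  exact hc

end NI
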