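import Pool.Agent.Helper33.NI.Accept

/-!
# NI-29: the accepted islands cover

`acc_cover`: choose `k` so large that `x ∈ Cv a (N k) (Z k)` and `x ∉ Bd a (N l + 3) (N (l+1)) (Z (l+1))` for all `l ≥ k`.  `p` with `Sh 0 (N k) p`, `y = T (-p) x ∈ Z k`.  Let `l > k` and `T g y ∈ Z l`; `q = p - g` is the position of `x` in the cube `(N l, g)`: `T (-q) x = T g y`.
`l = l' + 1`, `s = N l' + 3 ≥ N k + 3`.  Not bad: `¬ Sh (-s) (N l) q` or `Sh s (N l) q`.  In the second case `g i = p i - q i ≤ (N k - 1) - s ≤ -4` and `g i + N l = p i + (N l - q i) > s ≥ N k + 3`: `Deep`.  In the first case for some `i`: `q i < -s`: `g i > s ≥ N k + 3`, or `q i ≥ N l + s`: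
`g i < N k - N l - s ≤ - N l - 3`: `Apart`.  So `y ∈ Ac a N Z (N k)`.
`good_ae`: Borel-Cantelli: `measure_limsup_atTop_eq_zero` (or `ae_eventually_notMem`) with `∑ 2⁻¹ ^ k ≠ ⊤`, and `Mk.cov`.
-/

set_option autoImplicit false

namespace NI

open EB

open MeasureTheory

theorem acc_cover {d : ℕ} {X : Type} [MeasurableSpace X] (a : FreeAct d X) (μ : Measure X) (N : ℕ → ℕ)
    (Z : ℕ → Set X) (h : Mk a μ N Z) (x : X) (h1 : ∃ᶠ k in Filter.atTop, x ∈ Cv a (N k) (Z k))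
    (h2 : ∀ᶠ k in Filter.atTop, x ∉ Bd a (N k + 3) (N (k + 1)) (Z (k + 1))) :
    ∃ n p, Sh 0 n p ∧ a.T (-p) x ∈ Ac a N Z n := by
  obtain ⟨K, hK⟩ := Filter.eventually_atTop.1 h2
  obtain ⟨k, hkK, p, hp, hpZ⟩ := Filter.frequently_atTop.1 h1 K
  have hmono : Monotone N := monotone_nat_of_le_succ fun j => by
    have := h.lt j
    omega
  refine ⟨N k, p, hp, k, rfl, hpZ, fun l hl g hg => ?_⟩
  obtain ⟨l', rfl⟩ : ∃ l', l = l' + 1 := ⟨l - 1, by omega⟩
  have hb := hK l' (by omega)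
  have hN : N k ≤ N l' := hmono (by omega)
  have hN' : (N k : ℤ) ≤ N l' := by exact_mod_cast hN
  have hq : a.T (-(p - g)) x ∈ Z (l' + 1) := by
    have e : -(p - g) = g + -p := by abel
    rw [e, a.add]
    exact hg
  have hcase : ¬ Sh (-((N l' + 3 : ℕ) : ℤ)) (N (l' + 1)) (p - g) ∨
      Sh ((N l' + 3 : ℕ) : ℤ) (N (l' + 1)) (p - g) := by
    by_contra hcon
    push Not at hcon
    exact hb ⟨p - g, hcon.1, hcon.2, hq⟩
  rcases hcase with hc | hc
  · right
    unfold Sh at hc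
    push Not at hc
    obtain ⟨i, hi⟩ := hc
    refine ⟨i, ?_⟩
    have hpi := hp i
    simp only [Pi.sub_apply, Pi.zero_apply] at hi ⊢
    push_cast at hi
    by_cases h5 : -((N l' : ℤ) + 3) ≤ p i - g i
    · right
      have := hi h5
      omega
    · left
      omega
  · left
    intro i
    have hi := hc i
    have hpi := hp i
    simp only [Pi.sub_apply, Pi.zero_apply] at hi ⊢
    push_cast at hi
    constructor <;> omega

theorem good_ae {d : ℕ} {X : Type} [MeasurableSpace X] (a : FreeAct d X) (μ : Measure X) (N : ℕ → ℕ)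
    (Z : ℕ → Set X) (h : Mk a μ N Z) :
    ∀ᵐ x ∂μ, ∃ n p, Sh 0 n p ∧ a.T (-p) x ∈ Ac a N Z n := by
  have hsum : ∑' k, μ (Bd a (N k + 3) (N (k + 1)) (Z (k + 1))) ≠ ⊤ := by
    refine ne_top_of_le_ne_top ?_ (ENNReal.tsum_le_tsum fun k => h.bad k)
    rw [ENNReal.tsum_geometric, ENNReal.one_sub_inv_two, inv_inv]
    exact ENNReal.ofNat_ne_top
  filter_upwards [h.cov, ae_eventually_notMem hsum] with x hx1 hx2
  exact acc_cover a μ N Z h x hx1 hx2

end NI
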