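import Mathlib

/-!
# NI-26: infinitely many covers

`∫⁻ wt A (k+1) ∂μ = ∫⁻ wt A k ∂μ - (∫⁻ x in A k, wt A k x ∂μ) / 2 ≤ (1 - (2 c)⁻¹) ∫⁻ wt A k ∂μ` (`withDensity_apply`; all integrals are at most `μ univ < ⊤`; `c ≥ 1` unless the integral is `0`).  So the integrals tend to `0` and
`∫⁻ ⨅ k, wt A k ∂μ = 0`, so `⨅ k, wt A k x = 0` for almost all `x` (`lintegral_eq_zero_iff`).  If `x` is in only finitely many `A k` then `wt A k x` is eventually constant and positive (a power of `1/2`): so almost all `x` are in infinitely many.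
-/

set_option autoImplicit false

namespace NI

open MeasureTheory

open Classical in
/-- `2^(-n)`, `n` = the number of `j < k` with `x ∈ A j` -/
noncomputable def wt {X : Type} (A : ℕ → Set X) (k : ℕ) (x : X) : ENNReal :=
  ∏ j ∈ Finset.range k, if x ∈ A j then 2⁻¹ else 1

theorem wt_meas {X : Type} [MeasurableSpace X] (A : ℕ → Set X) (hA : ∀ k, MeasurableSet (A k)) (k : ℕ) :
    Measurable (wt A k) := by
  unfold wt
  refine Finset.measurable_prod _ ?_
  intro j _
  exact Measurable.ite (hA j) measurable_const measurable_const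

theorem wt_le {X : Type} (A : ℕ → Set X) (k : ℕ) (x : X) : wt A k x ≤ 1 := by
  unfold wt
  refine Finset.prod_le_one' ?_
  intro j _
  split_ifs
  · exact ENNReal.inv_le_one.mpr (by norm_num)
  · exact le_refl _

open Classical in
private theorem wt_succ {X : Type} (A : ℕ → Set X) (k : ℕ) (x : X) :
    wt A (k + 1) x = wt A k x * (if x ∈ A k then 2⁻¹ else 1) := by
  unfold wt
  rw [Finset.prod_range_succ]

private theorem wt_pos {X : Type} (A : ℕ → Set X) (k : ℕ) (x : X) : wt A k x ≠ 0 := by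
  unfold wt
  rw [Finset.prod_ne_zero_iff]
  intro j _
  split_ifs
  · simp
  · simp

private theorem wt_anti {X : Type} (A : ℕ → Set X) (x : X) : Antitone (fun k => wt A k x) := by
  refine antitone_nat_of_succ_le ?_
  intro k
  rw [wt_succ]
  calc wt A k x * _ ≤ wt A k x * 1 := by
        gcongr
        split_ifs
        · exact ENNReal.inv_le_one.mpr (by norm_num)
        · exact le_refl _
    _ = wt A k x := mul_one _

private theorem half_add (a : ENNReal) : a * 2⁻¹ + a * 2⁻¹ = a := by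
  rw [← mul_add, ENNReal.inv_two_add_inv_two, mul_one]

private theorem step {X : Type} [MeasurableSpace X] (μ : Measure X) (A : ℕ → Set X)
    (hA : ∀ k, MeasurableSet (A k)) (k : ℕ) :
    ∫⁻ x, wt A (k + 1) x ∂μ + (∫⁻ x in A k, wt A k x ∂μ) * 2⁻¹ = ∫⁻ x, wt A k x ∂μ := by
  classical
  have h1 : ∫⁻ x, wt A (k + 1) x ∂μ = (∫⁻ x in A k, wt A k x ∂μ) * 2⁻¹ +
      ∫⁻ x in (A k)ᶜ, wt A k x ∂μ := by
    rw [← lintegral_add_compl _ (hA k)]
    congr 1
    · rw [← lintegral_mul_const _ (wt_meas A hA k)]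
      refine setLIntegral_congr_fun (hA k) ?_
      intro x hx
      simp only [wt_succ, if_pos hx]
    · refine setLIntegral_congr_fun (hA k).compl ?_
      intro x hx
      simp only [wt_succ]
      rw [if_neg hx, mul_one]
  have h2 : ∫⁻ x, wt A k x ∂μ = ∫⁻ x in A k, wt A k x ∂μ + ∫⁻ x in (A k)ᶜ, wt A k x ∂μ :=
    (lintegral_add_compl _ (hA k)).symm
  rw [h1, h2, add_right_comm, half_add]

theorem decay {X : Type} [MeasurableSpace X] (μ : Measure X) [IsFiniteMeasure μ] (A : ℕ → Set X)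
    (hA : ∀ k, MeasurableSet (A k)) (c : ENNReal) (hc : c ≠ ⊤)
    (h : ∀ k, (μ.withDensity (wt A k)) Set.univ ≤ c * (μ.withDensity (wt A k)) (A k)) :
    ∀ᵐ x ∂μ, ∃ᶠ k in Filter.atTop, x ∈ A k := by
  classical
  have hI : ∀ k, ∫⁻ x, wt A k x ∂μ ≤ c * ∫⁻ x in A k, wt A k x ∂μ := by
    intro k
    have h' := h k
    rw [withDensity_apply _ MeasurableSet.univ, withDensity_apply _ (hA k),
      Measure.restrict_univ] at h'
    exact h'
  have hfin : ∀ k, ∫⁻ x, wt A k x ∂μ ≠ ⊤ := by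
    intro k
    refine ne_top_of_le_ne_top (measure_ne_top μ Set.univ) ?_
    calc ∫⁻ x, wt A k x ∂μ ≤ ∫⁻ _, 1 ∂μ := lintegral_mono (fun x => wt_le A k x)
      _ = μ Set.univ := by simp
  set q : ENNReal := (2 * c)⁻¹ with hq
  have hq0 : q ≠ 0 := by
    rw [hq]
    exact ENNReal.inv_ne_zero.mpr (ENNReal.mul_ne_top (by norm_num) hc)
  have hJ : ∀ k, (∫⁻ x, wt A k x ∂μ) * q ≤ (∫⁻ x in A k, wt A k x ∂μ) * 2⁻¹ := by
    intro k
    by_cases hc0 : c = 0
    · have : ∫⁻ x, wt A k x ∂μ = 0 := by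
        have := hI k
        rw [hc0, zero_mul] at this
        exact le_antisymm this bot_le
      rw [this, zero_mul]
      exact bot_le
    · calc (∫⁻ x, wt A k x ∂μ) * q ≤ (c * ∫⁻ x in A k, wt A k x ∂μ) * q := by
            gcongr
            exact hI k
        _ = (∫⁻ x in A k, wt A k x ∂μ) * 2⁻¹ * (c * c⁻¹) := by
            rw [hq, ENNReal.mul_inv (Or.inl (by norm_num)) (Or.inl (by norm_num))]
            ring
        _ = (∫⁻ x in A k, wt A k x ∂μ) * 2⁻¹ := by
            rw [ENNReal.mul_inv_cancel hc0 hc, mul_one]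
  have hstep : ∀ k, ∫⁻ x, wt A (k + 1) x ∂μ ≤ (∫⁻ x, wt A k x ∂μ) * (1 - q) := by
    intro k
    rw [ENNReal.mul_sub (fun _ _ => hfin k), mul_one]
    refine ENNReal.le_sub_of_add_le_right ?_ ?_
    · refine ne_top_of_le_ne_top (hfin k) ((hJ k).trans ?_)
      rw [← step μ A hA k]
      exact le_add_self
    · calc ∫⁻ x, wt A (k + 1) x ∂μ + (∫⁻ x, wt A k x ∂μ) * q
          ≤ ∫⁻ x, wt A (k + 1) x ∂μ + (∫⁻ x in A k, wt A k x ∂μ) * 2⁻¹ :=
            add_le_add le_rfl (hJ k)
        _ = ∫⁻ x, wt A k x ∂μ := step μ A hA k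
  have hpow : ∀ k, ∫⁻ x, wt A k x ∂μ ≤ (∫⁻ x, wt A 0 x ∂μ) * (1 - q) ^ k := by
    intro k
    induction k with
    | zero => simp
    | succ k ih =>
      calc ∫⁻ x, wt A (k + 1) x ∂μ ≤ (∫⁻ x, wt A k x ∂μ) * (1 - q) := hstep k
        _ ≤ ((∫⁻ x, wt A 0 x ∂μ) * (1 - q) ^ k) * (1 - q) := by gcongr
        _ = (∫⁻ x, wt A 0 x ∂μ) * (1 - q) ^ (k + 1) := by rw [pow_succ, mul_assoc]
  have hlim : Filter.Tendsto (fun k : ℕ => (∫⁻ x, wt A 0 x ∂μ) * (1 - q) ^ k) Filter.atTop
      (nhds 0) := by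
    have h1 : (1 - q) < 1 := ENNReal.sub_lt_self (by norm_num) (by norm_num) hq0
    have h2 := ENNReal.tendsto_pow_atTop_nhds_zero_of_lt_one h1
    have h3 := ENNReal.Tendsto.const_mul (a := ∫⁻ x, wt A 0 x ∂μ) h2 (Or.inr (hfin 0))
    rwa [mul_zero] at h3
  have hinf : ∫⁻ x, ⨅ k, wt A k x ∂μ = 0 := by
    refine le_antisymm ?_ bot_le
    refine ge_of_tendsto' hlim ?_
    intro k
    exact (lintegral_mono (fun x => iInf_le _ k)).trans (hpow k)
  have hae := (lintegral_eq_zero_iff (Measurable.iInf (fun k => wt_meas A hA k))).mp hinf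
  filter_upwards [hae] with x hx
  by_contra hcon
  rw [Filter.not_frequently, Filter.eventually_atTop] at hcon
  obtain ⟨N, hN⟩ := hcon
  have hconst : ∀ k, wt A (N + k) x = wt A N x := by
    intro k
    induction k with
    | zero => rfl
    | succ k ih =>
      have : wt A (N + k + 1) x = wt A (N + k) x := by
        rw [wt_succ, if_neg (hN (N + k) (by omega)), mul_one]
      rw [← add_assoc, this, ih]
  have hge : wt A N x ≤ ⨅ k, wt A k x := by
    refine le_iInf ?_
    intro k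
    by_cases hk : N ≤ k
    · obtain ⟨j, rfl⟩ := Nat.exists_eq_add_of_le hk
      exact (hconst j).symm.le
    · exact wt_anti A x (by omega)
  have hx' : (⨅ k, wt A k x) = 0 := hx
  rw [hx'] at hge
  exact wt_pos A N x (le_antisymm hge bot_le)

end NI
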