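import Pool.Agent.Helper33.NI.Gad

/-!
# NI-18: gadgets exist generically

`gad_open`: for fixed `N`, `m` the condition is about finitely many coordinates: `{x | Gad x N m}` is open (finite intersection of open sets; the set of `p` with `Sh (-1) N p` is finite).
`gad_dense`: a nonempty open set contains a basic one, given by the values of some `x0` on the box with radius `r` (take `r` so large that `g` is in it).  Take `N = 2 r + 7`, `m = fun _ => - r - 3`: the box is `m + Sh 3 N`.  Let `x = x0` on the box, `true` on the outer layer of the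
cube, `false` elsewhere.  `Sh 0 N (g - m)` for `g` in the box.
-/

set_option autoImplicit false

namespace NI

open EB

private theorem sh_mono {d : ℕ} {r r' : ℤ} {N : ℕ} {p : Gd d} (h : Sh r N p) (hr : r' ≤ r) :
    Sh r' N p := fun i => ⟨hr.trans (h i).1, by have := (h i).2; omega⟩

private theorem sh_finite {d : ℕ} (r : ℤ) (N : ℕ) : {p : Gd d | Sh r N p}.Finite := by
  refine (Set.Finite.pi (t := fun _ : Fin d => Set.Icc r ((N : ℤ) - r)) fun _ =>
    Set.finite_Icc _ _).subset fun p hp => ?_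
  intro i _
  exact ⟨(hp i).1, (hp i).2.le⟩

private theorem open_val {d : ℕ} (q : Gd d) (b : Bool) (P : Prop) :
    IsOpen {x : Om d | P → x q = b} := by
  by_cases hP : P
  · have h : {x : Om d | P → x q = b} = (fun x : Om d => x q) ⁻¹' {b} := by
      ext x
      simp [hP]
    rw [h]
    exact (isOpen_discrete _).preimage (continuous_apply q)
  · have h : {x : Om d | P → x q = b} = Set.univ := by
      ext x
      simp [hP]
    rw [h]
    exact isOpen_univ

theorem gad_open {d : ℕ} (N : ℕ) (m : Gd d) : IsOpen {x : Om d | Gad x N m} := by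
  have h : {x : Om d | Gad x N m} = {_x : Om d | 7 ≤ N} ∩
      ⋂ p ∈ {p : Gd d | Sh (-1) N p}, (({x : Om d | (Sh 0 N p ∧ ¬ Sh 1 N p) → x (m + p) = true} ∩
        {x : Om d | (Sh 1 N p ∧ ¬ Sh 3 N p) → x (m + p) = false}) ∩
        {x : Om d | (¬ Sh 0 N p) → x (m + p) = false}) := by
    ext x
    simp only [Set.mem_ofPred_eq, Set.mem_inter_iff, Set.mem_iInter]
    constructor
    · rintro ⟨h1, h2, h3, h4⟩
      exact ⟨h1, fun p hp => ⟨⟨fun h => h2 p h.1 h.2, fun h => h3 p h.1 h.2⟩, fun h => h4 p hp h⟩⟩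
    · rintro ⟨h1, h2⟩
      exact ⟨h1, fun p hp hp' => (h2 p (sh_mono hp (by norm_num))).1.1 ⟨hp, hp'⟩,
        fun p hp hp' => (h2 p (sh_mono hp (by norm_num))).1.2 ⟨hp, hp'⟩,
        fun p hp hp' => (h2 p hp).2 hp'⟩
  rw [h]
  refine isOpen_const.inter ((sh_finite (-1) N).isOpen_biInter fun p _ => ?_)
  exact ((open_val _ _ _).inter (open_val _ _ _)).inter (open_val _ _ _)

theorem gad_dense {d : ℕ} (g : Gd d) : Dense {x : Om d | ∃ N m, Gad x N m ∧ Sh 0 N (g - m)} := by
  classical
  rw [dense_iff_inter_open]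
  rintro U hU ⟨x0, hx0⟩
  obtain ⟨I, u, hu, hsub⟩ := isOpen_pi_iff.1 hU x0 hx0
  obtain ⟨r, hr⟩ : ∃ r : ℕ, ∀ p ∈ insert g I, ∀ i, |p i| ≤ (r : ℤ) := by
    refine ⟨(insert g I).sup fun p => Finset.univ.sup fun i => (p i).natAbs, fun p hp i => ?_⟩
    have h1 : (p i).natAbs ≤ Finset.univ.sup fun i => (p i).natAbs :=
      Finset.le_sup (f := fun i => (p i).natAbs) (Finset.mem_univ i)
    have h2 : (Finset.univ.sup fun i => (p i).natAbs) ≤
        (insert g I).sup fun p => Finset.univ.sup fun i => (p i).natAbs :=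
      Finset.le_sup (f := fun p : Gd d => Finset.univ.sup fun i => (p i).natAbs) hp
    have h3 := h1.trans h2
    rw [Int.abs_eq_natAbs]
    exact_mod_cast h3
  obtain ⟨m, hm⟩ : ∃ m : Gd d, m = fun _ => -(r : ℤ) - 3 := ⟨_, rfl⟩
  obtain ⟨x, hx⟩ : ∃ x : Om d, x = fun p => if ∀ i, |p i| ≤ (r : ℤ) then x0 p else
    if Sh 0 (2 * r + 7) (p - m) ∧ ¬ Sh 1 (2 * r + 7) (p - m) then true else false := ⟨_, rfl⟩
  have hbox : ∀ p : Gd d, (∀ i, |(m + p) i| ≤ (r : ℤ)) ↔ Sh 3 (2 * r + 7) p := by
    intro p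
    constructor
    · intro h i
      have h1 := abs_le.1 (h i)
      rw [hm] at h1
      simp only [Pi.add_apply] at h1
      constructor
      · omega
      · push_cast
        omega
    · intro h i
      have h1 := h i
      push_cast at h1
      rw [hm, abs_le]
      simp only [Pi.add_apply]
      constructor
      · omega
      · omega
  have hval : ∀ p : Gd d, ¬ Sh 3 (2 * r + 7) p →
      x (m + p) = if Sh 0 (2 * r + 7) p ∧ ¬ Sh 1 (2 * r + 7) p then true else false := by
    intro p hp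
    have h1 : ¬ ∀ i, |(m + p) i| ≤ (r : ℤ) := fun h => hp ((hbox p).1 h)
    rw [hx]
    simp only [if_neg h1, add_sub_cancel_left]
  refine ⟨x, hsub fun p hp => ?_, 2 * r + 7, m, ⟨by omega, fun p h0 h1 => ?_, fun p h0 h1 => ?_,
    fun p h0 h1 => ?_⟩, ?_⟩
  · have h1 : ∀ i, |p i| ≤ (r : ℤ) := hr p (Finset.mem_insert_of_mem hp)
    have h2 : x p = x0 p := by
      rw [hx]
      simp only [if_pos h1]
    rw [h2]
    exact (hu p hp).2
  · rw [hval p fun h => h1 (sh_mono h (by norm_num)), if_pos ⟨h0, h1⟩]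
  · rw [hval p h1, if_neg fun h => h.2 h0]
  · rw [hval p fun h => h1 (sh_mono h (by norm_num)), if_neg fun h => h1 h.1]
  · intro i
    have h1 := abs_le.1 (hr g (Finset.mem_insert_self _ _) i)
    rw [hm]
    simp only [Pi.sub_apply]
    push_cast
    constructor
    · omega
    · omega

end NI
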