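import Pool.Agent.Helper33.NI.Odo
import Pool.Agent.Helper27.EB.Resid

/-!
# NI-07: a generic point of the odometer

`MeasurableSet.residualEq_isOpen`: for each `s` there is an open `U s` with `{z | F z = s} =ᵇ U s`.  `E = {z | ∀ s, F z = s ↔ z ∈ U s}` is residual (finitely many `s`), and so is `⋂ g : Gd d, {z | z + emb κ g ∈ E}` (translations are
homeomorphisms: preimages of residual sets are residual, see `EB.resid_inv` for the method; `countable_iInter_mem`).  It is nonempty (`dense_of_mem_residual`; `ℤ_[3]` is a complete metric space, so a Baire space).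
-/

set_option autoImplicit false

namespace NI

open EB

theorem gen_pt {d : ℕ} {S : Type} [Finite S] [MeasurableSpace ℤ_[3]] [BorelSpace ℤ_[3]] (κ : Fin d → ℤ_[3])
    (F : ℤ_[3] → S) (hF : ∀ s, MeasurableSet {z | F z = s}) :
    ∃ (z : ℤ_[3]) (U : S → Set ℤ_[3]), (∀ s, IsOpen (U s)) ∧
      ∀ (g : Gd d) (s : S), F (z + emb κ g) = s ↔ z + emb κ g ∈ U s := by
  sorry

end NI
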