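import Pool.Agent.Helper24.NI.Dec

/-!
# NI-01: symmetries of the rules

(The decoding `conf_of_allowed` is in `Pool.Agent.Helper24.NI.Dec`.)
-/

set_option autoImplicit false

namespace NI

open EB

theorem Edge.symm {a b : Lab} (h : Edge a b) : Edge b a := fun e => (h e.symm).symm

theorem Quad.rot {a b c e : ZMod 3} (h : Quad a b c e) : Quad b c e a := by
  obtain ⟨i, ha, hb, hc, he, h1, h2⟩ := h
  exact ⟨i, hb, hc, he, ha, fun x y => (h2 x y).symm, fun x y => h1 y x⟩

theorem Quad.flip {a b c e : ZMod 3} (h : Quad a b c e) : Quad a e c b := by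
  obtain ⟨i, ha, hb, hc, he, h1, h2⟩ := h
  exact ⟨i, ha, he, hc, hb, fun x y => (h1 x y).symm, fun x y => h2 y x⟩

end NI
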