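import Pool.Agent.Helper33.NI.Defs

/-!
# NI: island systems

`J N m`: there is an island with side `N` (the cube `m + [0, N)^d`).  Inside an island the first component of the label is `2` in the outer layer, `1` in the next layer, `0` in the rest;
the second component is the parity of the coordinates relative to `m`.
-/

set_option autoImplicit false

namespace NI

open EB

/-- the parity -/
def par (i : ℤ) : Bool := decide (i % 2 = 1)

theorem par_succ (i : ℤ) : par (i + 1) = !par i := by
  unfold par
  rcases Int.emod_two_eq_zero_or_one i with h | h <;> simp [Int.add_emod, h]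

/-- the cube with side `N`, shrunk by `r` -/
def Sh {d : ℕ} (r : ℤ) (N : ℕ) (p : Gd d) : Prop := ∀ i, r ≤ p i ∧ p i < N - r

open Classical in
/-- the level of the cell with position `p` in an island with side `N` -/
noncomputable def lev {d : ℕ} (N : ℕ) (p : Gd d) : ZMod 3 := if Sh 2 N p then 0 else if Sh 1 N p then 1 else 2

/-- the label of the cell with position `p` in an island with side `N` -/
noncomputable def content {d : ℕ} (N : ℕ) (p : Gd d) : Lab := (lev N p, par (∑ i, p i))

/-- the cube with side `N` at `m` is well inside the cube with side `N'` at `m'` -/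
def Deep {d : ℕ} (N : ℕ) (m : Gd d) (N' : ℕ) (m' : Gd d) : Prop :=
  ∀ i, m' i + 3 ≤ m i ∧ m i + N + 3 ≤ m' i + N'

/-- the cubes are disjoint and not adjacent -/
def Apart {d : ℕ} (N : ℕ) (m : Gd d) (N' : ℕ) (m' : Gd d) : Prop :=
  ∃ i, m i + N + 1 ≤ m' i ∨ m' i + N' + 1 ≤ m i

/-- an island system -/
structure Isl {d : ℕ} (J : ℕ → Gd d → Prop) : Prop where
  nest : ∀ N m N' m', J N m → J N' m' → N ≤ N' → (N = N' ∧ m = m') ∨ Deep N m N' m' ∨ Apart N m N' m'
  cover : ∀ g, ∃ N m, J N m ∧ Sh 0 N (g - m)

/-- `(N, m)` is the smallest island containing `g` -/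
def First {d : ℕ} (J : ℕ → Gd d → Prop) (g : Gd d) (N : ℕ) (m : Gd d) : Prop :=
  J N m ∧ Sh 0 N (g - m) ∧ ∀ N' m', J N' m' → Sh 0 N' (g - m') → N ≤ N'

/-- the label of the cell `g` -/
def IsLab {d : ℕ} (J : ℕ → Gd d → Prop) (g : Gd d) (c : Lab) : Prop :=
  ∃ N m, First J g N m ∧ c = content N (g - m)

/-- the islands seen from `x`; `I N` is the set of the corners of the islands with side `N` -/
def Jx {d : ℕ} {X : Type} [MeasurableSpace X] (a : FreeAct d X) (I : ℕ → Set X) (x : X) (N : ℕ)
    (m : Gd d) : Prop := a.T m x ∈ I N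

end NI
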