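import Pool.Agent.Helper33.NI.IslBasic

/-!
# NI-11: first islands in a unit cube

`square`: the `2 ^ d` points `g` with `g0 i ≤ g i ≤ g0 i + 1`.  Choose one, `g1`, whose first island `(N, m)` has the smallest side (`Nat.find` on the set of sides).  If `g` is another one with first island
`(N1, m1)`, `N ≤ N1`: `key` for `g1`, `g`: equal (then `Sh 0 N (g - m)`), or `¬ Sh 0 N (g - m)` and `Deep N m N1 m1`, or `Deep N1 m1 N m` with `N1 < N` (impossible, `d ≥ 1`).
If `g`, `g'` are both of the second kind with `(N1, m1)`, `(N2, m2)`: `key` for `g`, `g'`: equal, or `¬ Sh 0 N1 (g' - m1)`: impossible since `Deep N m N1 m1` and `g1` in `(N, m)` and `|g' i - g1 i| ≤ 1` give `Sh 0 N1 (g' - m1)`; the same for the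
third case.  So `(N', m')` is the same for all points of the second kind (if there is none, take anything).
-/

set_option autoImplicit false

namespace NI

open EB

variable {d : ℕ} {J : ℕ → Gd d → Prop}

theorem Isl.square (hJ : Isl J) (g0 : Gd d) : ∃ N m N' m',
    ∀ g : Gd d, (∀ i, g0 i ≤ g i ∧ g i ≤ g0 i + 1) →
      (Sh 0 N (g - m) ∧ First J g N m) ∨ (¬ Sh 0 N (g - m) ∧ First J g N' m' ∧ Deep N m N' m' ∧
        ∀ i, m i - 1 ≤ g i ∧ g i ≤ m i + N) := by
  classical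
  have hex : ∃ n : ℕ, ∃ (g : Gd d) (m : Gd d), (∀ i, g0 i ≤ g i ∧ g i ≤ g0 i + 1) ∧
      First J g n m := by
    obtain ⟨N, m, h⟩ := hJ.exists_first g0
    exact ⟨N, g0, m, fun i => ⟨le_rfl, by omega⟩, h⟩
  obtain ⟨g1, m, hg1, hF1⟩ := Nat.find_spec hex
  have hmin : ∀ (N1 : ℕ) (g m1 : Gd d), (∀ i, g0 i ≤ g i ∧ g i ≤ g0 i + 1) →
      First J g N1 m1 → Nat.find hex ≤ N1 := fun N1 g m1 h1 h2 =>
    Nat.find_min' hex ⟨g, m1, h1, h2⟩
  generalize Nat.find hex = N at hF1 hmin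
  have hin1 : ∀ i, m i ≤ g1 i ∧ g1 i < m i + N := by
    intro i
    have h1 := hF1.2.1 i
    rw [Pi.sub_apply] at h1
    constructor <;> omega
  -- the points of the second kind
  have hkind : ∀ g : Gd d, (∀ i, g0 i ≤ g i ∧ g i ≤ g0 i + 1) → ∀ (N1 : ℕ) (m1 : Gd d),
      First J g N1 m1 → (Sh 0 N (g - m) ∧ First J g N m) ∨
        (¬ Sh 0 N (g - m) ∧ Deep N m N1 m1 ∧ ∀ i, m i - 1 ≤ g i ∧ g i ≤ m i + N) := by
    intro g hg N1 m1 hF
    have hd : ∀ i, |g1 i - g i| ≤ 1 := by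
      intro i
      have h1 := hg1 i
      have h2 := hg i
      rw [abs_le]
      constructor <;> omega
    rcases hJ.key hd hF1 hF with ⟨h1, h2⟩ | ⟨h1, h2⟩ | ⟨h1, h2⟩
    · subst h1
      subst h2
      exact Or.inl ⟨hF.2.1, hF⟩
    · refine Or.inr ⟨h1, h2, fun i => ?_⟩
      have h3 := hin1 i
      have h4 := abs_le.1 (hd i)
      constructor <;> omega
    · exfalso
      apply h1
      intro i
      have h3 := h2 i
      have h4 := hmin N1 g m1 hg hF
      omega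
  by_cases hsec : ∃ (g : Gd d) (N1 : ℕ) (m1 : Gd d), (∀ i, g0 i ≤ g i ∧ g i ≤ g0 i + 1) ∧
      First J g N1 m1 ∧ ¬ Sh 0 N (g - m)
  · obtain ⟨g2, N2, m2, hg2, hF2, hn2⟩ := hsec
    obtain ⟨h2D, h2b⟩ := ((hkind g2 hg2 N2 m2 hF2).resolve_left fun h => hn2 h.1).2
    refine ⟨N, m, N2, m2, fun g hg => ?_⟩
    obtain ⟨N1, m1, hF⟩ := hJ.exists_first g
    rcases hkind g hg N1 m1 hF with h1 | ⟨h1, h2, h3⟩
    · exact Or.inl h1
    · have hd : ∀ i, |g i - g2 i| ≤ 1 := by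
        intro i
        have h4 := hg i
        have h5 := hg2 i
        rw [abs_le]
        constructor <;> omega
      have hin : ∀ (g' : Gd d) (N3 : ℕ) (m3 : Gd d), Deep N m N3 m3 →
          (∀ i, m i - 1 ≤ g' i ∧ g' i ≤ m i + N) → Sh 0 N3 (g' - m3) := by
        intro g' N3 m3 hD hb i
        have h4 := hD i
        have h5 := hb i
        rw [Pi.sub_apply]
        constructor <;> omega
      rcases hJ.key hd hF hF2 with ⟨h4, h5⟩ | ⟨h4, h5⟩ | ⟨h4, h5⟩
      · subst h4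
        subst h5
        exact Or.inr ⟨h1, hF, h2, h3⟩
      · exact absurd (hin g2 N1 m1 h2 h2b) h4
      · exact absurd (hin g N2 m2 h2D h3) h4
  · push Not at hsec
    refine ⟨N, m, 0, 0, fun g hg => ?_⟩
    obtain ⟨N1, m1, hF⟩ := hJ.exists_first g
    rcases hkind g hg N1 m1 hF with h1 | ⟨h1, _, _⟩
    · exact Or.inl h1
    · exact absurd (hsec g N1 m1 hg hF) h1

end NI
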