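import Pool.Agent.Helper33.NI.Defs

/-!
# NI-03: independent units of `ℤ_[3]`

Baire category in `Fin d → ℤ_[3]` (a complete metric space, so a Baire space).  For `g ≠ 0` the set `{κ | ∑ i, g i * κ i ≠ 0}` is open; it is dense:
if `g i ≠ 0` change `κ i` by `3 ^ n` (`(g i : ℤ_[3]) * 3 ^ n ≠ 0`).  So the intersection over the countably many `g ≠ 0` is dense (`dense_iInter_of_isOpen` or
`dense_of_mem_residual`) and meets the open nonempty set of all `κ` with `‖κ i‖ = 1` for all `i` (`{z : ‖z‖ = 1} = {z : ‖z‖ < 1}ᶜ` is open as the norm takes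
discrete values, or: all `κ` with `‖κ i - 1‖ < 1`, these satisfy `‖κ i‖ = 1`).
-/

set_option autoImplicit false

namespace NI

open EB

theorem exists_kap (d : ℕ) : ∃ κ : Fin d → ℤ_[3], (∀ i, ‖κ i‖ = 1) ∧
    ∀ g : Gd d, ∑ i, (g i : ℤ_[3]) * κ i = 0 → g = 0 := by
  sorry

end NI
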