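import Pool.Agent.Helper33.NI.LabConf

/-!
# NI-14: the labelling on the space

`Jx a I (T g x) N m ↔ Jx a I x N (m + g)` (`add`), so `IsLab (Jx a I (T g x)) h c ↔ IsLab (Jx a I x) (h + g) c` (shift the corner: `m ↦ m + g`).
`F x` = the unique `c` with `IsLab (Jx a I x) 0 c`.  Measurable: `{x | IsLab (Jx a I x) 0 c}` is built from the sets `{x | a.T m x ∈ I N}` (measurable) by countable unions and intersections over `N`, `m` and complements.
`Conf`: `lab_conf` for `J = Jx a I x`, `y g = F (T g x)`: `IsLab (Jx a I x) g (F (T g x))`.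
-/

set_option autoImplicit false

namespace NI

open EB

private theorem isLab_shift {d : ℕ} {X : Type} [MeasurableSpace X] (a : FreeAct d X)
    (I : ℕ → Set X) (x : X) (g : Gd d) (c : Lab) (h : IsLab (Jx a I (a.T g x)) 0 c) :
    IsLab (Jx a I x) g c := by
  obtain ⟨N, m, ⟨h1, h2, h3⟩, h4⟩ := h
  have e1 : g - (m + g) = 0 - m := by abel
  refine ⟨N, m + g, ⟨?_, ?_, ?_⟩, ?_⟩
  · unfold Jx at h1 ⊢
    rw [a.add]
    exact h1
  · rw [e1]
    exact h2
  · intro N' m' h5 h6
    refine h3 N' (m' - g) ?_ ?_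
    · unfold Jx at h5 ⊢
      rw [← a.add, sub_add_cancel]
      exact h5
    · have e2 : 0 - (m' - g) = g - m' := by abel
      rw [e2]
      exact h6
  · rw [e1]
    exact h4

private theorem ms_isLab {d : ℕ} {X : Type} [MeasurableSpace X] (a : FreeAct d X)
    (I : ℕ → Set X) (hI : ∀ N, MeasurableSet (I N)) (g : Gd d) (c : Lab) :
    MeasurableSet {x | IsLab (Jx a I x) g c} := by
  have h1 : ∀ N m, MeasurableSet {x | Jx a I x N m} := fun N m => a.meas m (hI N)
  have h2 : {x | IsLab (Jx a I x) g c} = ⋃ N, ⋃ m, ((({x | Jx a I x N m} ∩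
      {_x | Sh 0 N (g - m)}) ∩ ⋂ N', ⋂ m', ({x | Jx a I x N' m'}ᶜ ∪
        {_x | Sh 0 N' (g - m') → N ≤ N'})) ∩ {_x | c = content N (g - m)}) := by
    ext x
    simp only [Set.mem_ofPred_eq, Set.mem_iUnion, Set.mem_inter_iff, Set.mem_iInter,
      Set.mem_union, Set.mem_compl_iff]
    unfold IsLab First
    refine exists_congr fun N => exists_congr fun m => ?_
    constructor
    · rintro ⟨⟨q1, q2, q3⟩, q4⟩
      refine ⟨⟨⟨q1, q2⟩, fun N' m' => ?_⟩, q4⟩
      by_cases q : Jx a I x N' m'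
      · exact Or.inr (q3 N' m' q)
      · exact Or.inl q
    · rintro ⟨⟨⟨q1, q2⟩, q3⟩, q4⟩
      refine ⟨⟨q1, q2, fun N' m' q => ?_⟩, q4⟩
      rcases q3 N' m' with q5 | q5
      · exact absurd q q5
      · exact q5
  rw [h2]
  refine MeasurableSet.iUnion fun N => MeasurableSet.iUnion fun m => ?_
  refine MeasurableSet.inter (MeasurableSet.inter (MeasurableSet.inter (h1 N m) ?_) ?_) ?_
  · exact MeasurableSet.const _
  · refine MeasurableSet.iInter fun N' => MeasurableSet.iInter fun m' => ?_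
    exact (h1 N' m').compl.union (MeasurableSet.const _)
  · exact MeasurableSet.const _

theorem lab_space {d : ℕ} {X : Type} [MeasurableSpace X] (a : FreeAct d X) (I : ℕ → Set X)
    (hI : ∀ N, MeasurableSet (I N)) (C : Set X) (hC : Inv a C) (h : ∀ x ∈ C, Isl (Jx a I x)) :
    ∃ F : C → Lab, Ms F ∧ ∀ x : C, Conf fun g => F ⟨a.T g x.1, hC g x.1 x.2⟩ := by
  have hF : ∀ x : C, IsLab (Jx a I x.1) 0 ((h x.1 x.2).exists_unique 0).choose := fun x =>
    ((h x.1 x.2).exists_unique 0).choose_spec.1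
  have hU : ∀ (x : C) (c : Lab), IsLab (Jx a I x.1) 0 c →
      c = ((h x.1 x.2).exists_unique 0).choose := fun x c hc =>
    ((h x.1 x.2).exists_unique 0).choose_spec.2 c hc
  refine ⟨fun x => ((h x.1 x.2).exists_unique 0).choose, ?_, ?_⟩
  · intro c
    have e : {x : C | ((h x.1 x.2).exists_unique 0).choose = c} =
        Subtype.val ⁻¹' {x | IsLab (Jx a I x) 0 c} := by
      ext x
      simp only [Set.mem_ofPred_eq, Set.mem_preimage]
      constructor
      · intro q
        rw [← q]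
        exact hF x
      · intro q
        exact (hU x c q).symm
    rw [e]
    exact measurable_subtype_coe (ms_isLab a I hI 0 c)
  · intro x
    refine (h x.1 x.2).lab_conf _ fun g => ?_
    exact isLab_shift a I x.1 g _ (hF ⟨a.T g x.1, hC g x.1 x.2⟩)

end NI
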