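import Pool.Agent.Helper24.NI.NoBorel
import Pool.Agent.Helper33.NI.Baire
import Pool.Agent.Helper33.NI.Meas

/-!
# NI: the theorem
-/

set_option autoImplicit false

namespace NI

open EB

theorem main (d : ℕ) (hd : 2 ≤ d) :
    MeasSol d lcl ∧ BaireSol d lcl ∧ ¬ BorelSol (fshift d) lcl :=
  ⟨meas_sol d, baire_sol d hd, no_borel hd⟩

end NI
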