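import Pool.Agent.Helper33.NI.Odo

/-!
# NI-05: the odometer, periods and measurability

* `iot_shift`: definition of `sh`, `emb_add`.
* `iot_meas`: the set is a countable union of closed sets `{z | ‖z + emb κ h‖ = r}`, or its complement.
* `per`: a ball with radius `3 ^ (-e)` around `z + emb κ g` is in `U`; `‖emb κ (3 ^ e • w)‖ ≤ 3 ^ (-e)` (`emb_smul`, `PadicInt.norm_le_one`; take a slightly larger `e` for the strict inequality).
-/

set_option autoImplicit false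

namespace NI

open EB

theorem iot_shift {d : ℕ} (κ : Fin d → ℤ_[3]) (z : ℤ_[3]) (g : Gd d) :
    iot κ (z + emb κ g) = sh g (iot κ z) := by
  funext h
  have h1 : z + emb κ g + emb κ h = z + emb κ (h + g) := by
    rw [emb_add]
    ring
  unfold iot sh
  exact decide_eq_decide.2 (by rw [h1])

theorem iot_meas {d : ℕ} [MeasurableSpace ℤ_[3]] [BorelSpace ℤ_[3]] (κ : Fin d → ℤ_[3]) (h : Gd d)
    (b : Bool) : MeasurableSet {z : ℤ_[3] | iot κ z h = b} := by
  have h0 : ∀ r : ℝ, MeasurableSet {z : ℤ_[3] | ‖z + emb κ h‖ = r} := by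
    intro r
    exact (isClosed_eq (by fun_prop) continuous_const).measurableSet
  have h1 : MeasurableSet {z : ℤ_[3] | ∃ k : ℕ, ‖z + emb κ h‖ = (3 : ℝ) ^ (-(2 * k : ℤ))} := by
    rw [Set.ofPred_exists]
    exact MeasurableSet.iUnion fun k => h0 _
  cases b with
  | true =>
    have h2 : {z : ℤ_[3] | iot κ z h = true} =
        {z : ℤ_[3] | ∃ k : ℕ, ‖z + emb κ h‖ = (3 : ℝ) ^ (-(2 * k : ℤ))} := by
      ext z
      exact @decide_eq_true_iff _ (Classical.propDecidable _)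
    rw [h2]
    exact h1
  | false =>
    have h2 : {z : ℤ_[3] | iot κ z h = false} =
        {z : ℤ_[3] | ∃ k : ℕ, ‖z + emb κ h‖ = (3 : ℝ) ^ (-(2 * k : ℤ))}ᶜ := by
      ext z
      exact @decide_eq_false_iff_not _ (Classical.propDecidable _)
    rw [h2]
    exact h1.compl

theorem per {d : ℕ} (κ : Fin d → ℤ_[3]) (U : Set ℤ_[3]) (hU : IsOpen U) (z : ℤ_[3]) (g : Gd d)
    (h : z + emb κ g ∈ U) : ∃ e : ℕ, ∀ w : Gd d, z + emb κ (g + (3 ^ e : ℤ) • w) ∈ U := by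
  obtain ⟨ε, hε, hb⟩ := Metric.isOpen_iff.1 hU _ h
  obtain ⟨e, he⟩ := exists_pow_lt_of_lt_one hε (by norm_num : (3 : ℝ)⁻¹ < 1)
  refine ⟨e, fun w => hb ?_⟩
  rw [Metric.mem_ball, dist_eq_norm, emb_add, emb_smul]
  have h1 : z + (emb κ g + ((3 ^ e : ℤ) : ℤ_[3]) * emb κ w) - (z + emb κ g) =
      (3 : ℤ_[3]) ^ e * emb κ w := by
    push_cast
    ring
  have h3 : ‖(3 : ℤ_[3])‖ = (3 : ℝ)⁻¹ := by
    have := PadicInt.norm_p (p := 3)
    exact_mod_cast this
  rw [h1, norm_mul, norm_pow, h3]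
  calc (3 : ℝ)⁻¹ ^ e * ‖emb κ w‖ ≤ (3 : ℝ)⁻¹ ^ e * 1 :=
        mul_le_mul_of_nonneg_left (PadicInt.norm_le_one _) (by positivity)
    _ < ε := by rw [mul_one]; exact he

end NI
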