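import Pool.Agent.Helper33.NI.OdoFree
import Pool.Agent.Helper33.NI.OdoPer
import Pool.Agent.Helper33.NI.GenPt
import Pool.Agent.Helper33.NI.Kap

/-!
# NI-08: a Borel map has a Toeplitz orbit

`κ` from `exists_kap`.  `letI : MeasurableSpace ℤ_[3] := borel _`, `BorelSpace`.  `F z = f ⟨iot κ z, iot_free ..⟩`; `{z | F z = s}` is Borel: `z ↦ iot κ z` is measurable (`measurable_pi_iff`, `iot_meas`).  `gen_pt` gives `z`, `U`; `x = ⟨iot κ z, _⟩`:
`f (T g x) = F (z + emb κ g)` by `iot_shift`.  `Toep`: with `s = f (T g x)` we have `z + emb κ g ∈ U s`; `per`.  `Synd`: `s = f x`, `U s` is nonempty; `ret` at the points `z + emb κ g` (`emb_add`).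
-/

set_option autoImplicit false

namespace NI

open EB

theorem toep_pt (d : ℕ) (f : FP d → Lab) (hf : ∀ s, MeasurableSet {x | f x = s}) :
    ∃ x : FP d, Toep (fun g => f ((fshift d).T g x)) ∧ Synd (fun g => f ((fshift d).T g x)) := by
  obtain ⟨κ, hκ, hi⟩ := exists_kap d
  have hi' : ∀ g : Gd d, emb κ g = 0 → g = 0 := hi
  let _ : MeasurableSpace ℤ_[3] := borel _
  have : BorelSpace ℤ_[3] := ⟨rfl⟩
  have hio : Measurable fun z : ℤ_[3] => (⟨iot κ z, iot_free κ hκ hi' z⟩ : FP d) := by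
    refine Measurable.subtype_mk ?_
    refine measurable_pi_iff.2 fun h => ?_
    refine measurable_to_countable' fun b => ?_
    exact iot_meas κ h b
  obtain ⟨z, U, hU, hz⟩ := gen_pt κ (fun z => f ⟨iot κ z, iot_free κ hκ hi' z⟩) fun s => hio (hf s)
  have hkey : ∀ g : Gd d, (fshift d).T g ⟨iot κ z, iot_free κ hκ hi' z⟩ =
      ⟨iot κ (z + emb κ g), iot_free κ hκ hi' (z + emb κ g)⟩ := by
    intro g
    exact Subtype.ext (iot_shift κ z g).symm
  refine ⟨⟨iot κ z, iot_free κ hκ hi' z⟩, ?_, ?_⟩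
  · intro g
    have h1 := (hz g (f ⟨iot κ (z + emb κ g), iot_free κ hκ hi' (z + emb κ g)⟩)).1 rfl
    obtain ⟨e, he⟩ := per κ _ (hU _) z g h1
    refine ⟨e, fun w => ?_⟩
    show f _ = f _
    rw [hkey, hkey]
    exact (hz _ _).2 (he w)
  · have h1 := (hz 0 (f ⟨iot κ (z + emb κ 0), iot_free κ hκ hi' (z + emb κ 0)⟩)).1 rfl
    obtain ⟨N, hN⟩ := ret κ hκ _ (hU _) ⟨_, h1⟩
    refine ⟨f ⟨iot κ (z + emb κ 0), iot_free κ hκ hi' (z + emb κ 0)⟩, N, fun g i => ?_⟩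
    obtain ⟨t, ht, ht'⟩ := hN (z + emb κ g) i
    refine ⟨t, ht, ?_⟩
    rw [add_assoc, ← emb_add] at ht'
    show f _ = _
    rw [hkey]
    exact (hz _ _).2 ht'

end NI
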