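import Pool.Agent.Helper33.NI.GridA
import Pool.Agent.Helper33.NI.ToepPt
import Pool.Agent.Helper33.NI.Core

/-!
# NI-09: there is no Borel solution

Let `f` be a Borel solution; `toep_pt` gives `x`; `y g = f (T g x)`.  `sol_iff_univ` at the points `T v x` gives `Allowed d lcl fun b => f (T b (T v x))` and `T b (T v x) = T (v + b) x`.  `conf_of_allowed`, `no_conf`.
-/

set_option autoImplicit false

namespace NI

open EB

theorem no_borel (d : ℕ) (hd : 2 ≤ d) : ¬ BorelSol (fshift d) lcl := by
  rintro ⟨f, hf, hsol⟩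
  rw [sol_iff_univ] at hsol
  obtain ⟨x, hT, hS⟩ := toep_pt d f hf
  refine no_conf hd _ (conf_of_allowed _ fun v => ?_) hT hS
  have h := hsol ((fshift d).T v x)
  have h2 : (fun b : ball (grid d) lcl.r 0 => f ((fshift d).T b.1 ((fshift d).T v x))) =
      fun b : ball (grid d) lcl.r 0 => f ((fshift d).T (v + b.1) x) := by
    funext b
    rw [← (fshift d).add, add_comm]
  rw [h2] at h
  exact h

end NI
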