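import Pool.Agent.Helper33.NI.Defs

/-!
# NI: the odometer in the free part (definitions)

`K = ℤ_[3]`, `e_i` acts as the translation by the unit `κ i`; `emb κ g = ∑ i, g i * κ i`.  `iot κ z h = true` iff the valuation of `z + emb κ h` is even, that is
`‖z + emb κ h‖ = 3 ^ (-2k)` for some natural number `k`.
-/

set_option autoImplicit false

namespace NI

open EB

/-- integer vectors in the odometer -/
noncomputable def emb {d : ℕ} (κ : Fin d → ℤ_[3]) (g : Gd d) : ℤ_[3] := ∑ i, (g i : ℤ_[3]) * κ i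

theorem emb_add {d : ℕ} (κ : Fin d → ℤ_[3]) (g h : Gd d) : emb κ (g + h) = emb κ g + emb κ h := by
  simp [emb, add_mul, Finset.sum_add_distrib]

theorem emb_smul {d : ℕ} (κ : Fin d → ℤ_[3]) (n : ℤ) (g : Gd d) : emb κ (n • g) = n * emb κ g := by
  simp [emb, Finset.mul_sum, mul_assoc]

theorem emb_un {d : ℕ} (κ : Fin d → ℤ_[3]) (i : Fin d) : emb κ (un i) = κ i := by
  simp [emb, un, Pi.single_apply]

open Classical in
/-- the map into `2^(Z^d)` -/
noncomputable def iot {d : ℕ} (κ : Fin d → ℤ_[3]) (z : ℤ_[3]) : Om d := fun h =>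
  decide (∃ k : ℕ, ‖z + emb κ h‖ = (3 : ℝ) ^ (-(2 * k : ℤ)))

end NI
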