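import Pool.Agent.Helper33.NI.OdoHit

/-!
# NI-06: the odometer is free

Let `g ≠ 0`, `‖emb κ g‖ = 3 ^ (-m)` (`emb κ g ≠ 0`; `PadicInt.norm_eq_zpow_neg_valuation`).  `d ≥ 1` as `g ≠ 0`.  By `hit` with `t = 3 ^ (m + 1)`, `n = m + 2` there is `h = m' • un i` with
`‖z + emb κ h - 3 ^ (m+1)‖ ≤ 3 ^ (-m-2)`, so `‖z + emb κ h‖ = 3 ^ (-m-1)` and `‖z + emb κ (h + g)‖ = 3 ^ (-m)` (`PadicInt.norm_add_eq_max_of_ne`).  So `iot κ z h ≠ iot κ z (h + g)`: if `sh g (iot κ z) = iot κ z` then `g = 0`.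
-/

set_option autoImplicit false

namespace NI

open EB

private theorem pow_par (n : ℕ) : (∃ k : ℕ, (3 : ℝ) ^ (-(n : ℤ)) = (3 : ℝ) ^ (-(2 * k : ℤ))) ↔ n % 2 = 0 := by
  constructor
  · rintro ⟨k, hk⟩
    have h := zpow_right_injective₀ (by norm_num : (0 : ℝ) < 3) (by norm_num : (3 : ℝ) ≠ 1) hk
    omega
  · intro h
    refine ⟨n / 2, ?_⟩
    congr 1
    omega

theorem iot_free {d : ℕ} (κ : Fin d → ℤ_[3]) (hκ : ∀ i, ‖κ i‖ = 1)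
    (hi : ∀ g : Gd d, emb κ g = 0 → g = 0) (z : ℤ_[3]) : iot κ z ∈ FP d := by
  intro g hg
  by_contra hne
  have he : emb κ g ≠ 0 := fun h => hne (hi g h)
  obtain ⟨i, -⟩ : ∃ i, g i ≠ 0 := by
    by_contra h
    push Not at h
    exact hne (funext h)
  obtain ⟨m, hm⟩ : ∃ m : ℕ, ‖emb κ g‖ = (3 : ℝ) ^ (-(m : ℤ)) :=
    ⟨(emb κ g).valuation, by simpa using PadicInt.norm_eq_zpow_neg_valuation he⟩
  obtain ⟨a, -, ha⟩ := hit κ hκ i z ((3 : ℤ_[3]) ^ (m + 1)) (m + 2)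
  set h : Gd d := (a : ℤ) • un i with hh
  have h3 : ‖(3 : ℤ_[3]) ^ (m + 1)‖ = (3 : ℝ) ^ (-((m + 1 : ℕ) : ℤ)) := by
    simpa using PadicInt.norm_p_pow (p := 3) (m + 1)
  have hlt : (3 : ℝ) ^ (-((m + 2 : ℕ) : ℤ)) < (3 : ℝ) ^ (-((m + 1 : ℕ) : ℤ)) :=
    zpow_lt_zpow_right₀ (by norm_num) (by push_cast; omega)
  have h1 : ‖z + emb κ h‖ = (3 : ℝ) ^ (-((m + 1 : ℕ) : ℤ)) := by
    have h4 : z + emb κ h = (z + emb κ h - (3 : ℤ_[3]) ^ (m + 1)) + (3 : ℤ_[3]) ^ (m + 1) := by ring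
    have h5 : ‖z + emb κ h - (3 : ℤ_[3]) ^ (m + 1)‖ < ‖(3 : ℤ_[3]) ^ (m + 1)‖ := by
      rw [h3]
      exact lt_of_le_of_lt ha hlt
    rw [h4, PadicInt.norm_add_eq_max_of_ne h5.ne, max_eq_right h5.le, h3]
  have hlt2 : (3 : ℝ) ^ (-((m + 1 : ℕ) : ℤ)) < (3 : ℝ) ^ (-(m : ℤ)) :=
    zpow_lt_zpow_right₀ (by norm_num) (by push_cast; omega)
  have h2 : ‖z + emb κ (h + g)‖ = (3 : ℝ) ^ (-(m : ℤ)) := by
    have h5 : ‖z + emb κ h‖ < ‖emb κ g‖ := by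
      rw [h1, hm]
      exact hlt2
    rw [emb_add, ← add_assoc, PadicInt.norm_add_eq_max_of_ne h5.ne, max_eq_right h5.le, hm]
  have h6 := congrFun hg h
  simp only [sh, iot, h1, h2, pow_par, decide_eq_decide] at h6
  omega

end NI
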