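import Pool.Agent.Helper33.NI.Odo

/-!
# NI-04: hitting times in the odometer

* `hit`: `m ≡ (t - z) * (κ i)⁻¹ mod 3 ^ n` (`PadicInt.appr`, `PadicInt.appr_lt`, `PadicInt.appr_spec`, the unit `κ i`: `PadicInt.isUnit_iff`; `emb_smul`, `emb_un`).
* `ret`: `U` contains the closed ball with radius `3 ^ (-n)` around some `t`; `hit`; `N = 3 ^ n`.
-/

set_option autoImplicit false

namespace NI

open EB

theorem hit {d : ℕ} (κ : Fin d → ℤ_[3]) (hκ : ∀ i, ‖κ i‖ = 1) (i : Fin d) (z t : ℤ_[3]) (n : ℕ) :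
    ∃ m : ℕ, m < 3 ^ n ∧ ‖z + emb κ ((m : ℤ) • un i) - t‖ ≤ (3 : ℝ) ^ (-(n : ℤ)) := by
  obtain ⟨u, hu⟩ := PadicInt.isUnit_iff.2 (hκ i)
  set x : ℤ_[3] := (t - z) * ((u⁻¹ : ℤ_[3]ˣ) : ℤ_[3]) with hx
  refine ⟨x.appr n, PadicInt.appr_lt x n, ?_⟩
  have h1 : x * κ i = t - z := by
    rw [hx, ← hu, mul_assoc, Units.inv_mul, mul_one]
  have h2 : z + emb κ (((x.appr n : ℕ) : ℤ) • un i) - t = -((x - (x.appr n : ℤ_[3])) * κ i) := by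
    rw [emb_smul, emb_un, sub_mul, h1]
    push_cast
    ring
  rw [h2, norm_neg, norm_mul, hκ i, mul_one]
  have h3 := PadicInt.appr_spec n x
  have h4 := (PadicInt.norm_le_pow_iff_mem_span_pow (x - (x.appr n : ℤ_[3])) n).2 (by simpa using h3)
  simpa using h4

theorem ret {d : ℕ} (κ : Fin d → ℤ_[3]) (hκ : ∀ i, ‖κ i‖ = 1) (U : Set ℤ_[3]) (hU : IsOpen U)
    (hne : U.Nonempty) : ∃ N : ℕ, ∀ (z : ℤ_[3]) (i : Fin d), ∃ t : ℕ, t < N ∧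
      z + emb κ ((t : ℤ) • un i) ∈ U := by
  obtain ⟨t, ht⟩ := hne
  obtain ⟨ε, hε, hb⟩ := Metric.isOpen_iff.1 hU t ht
  obtain ⟨n, hn⟩ := exists_pow_lt_of_lt_one hε (show (3 : ℝ)⁻¹ < 1 by norm_num)
  refine ⟨3 ^ n, fun z i => ?_⟩
  obtain ⟨m, hm, h⟩ := hit κ hκ i z t n
  refine ⟨m, hm, hb ?_⟩
  rw [Metric.mem_ball, dist_eq_norm]
  refine lt_of_le_of_lt h ?_
  rw [zpow_neg, zpow_natCast, ← inv_pow]
  exact hn

end NI
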