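import Pool.Agent.Helper33.NI.Step
import Pool.Agent.Helper33.NI.Decay

/-!
# NI-27: the sequence of markers

Recursion: the state after `k` steps is the list (or function on `Fin k`) of the `(N j, Z j)`, `j < k`; or the pair `(N k, f k)` with the weight `f k = wt A k`, `A j = Cv a (N j) (Z j)` (`wt A (k+1) x = wt A k x * (if x ∈ A k then 2⁻¹ else 1)`).
`step` with `ν = μ.withDensity (wt A k)` (finite as `wt ≤ 1`), `s = N (k-1) + 3` (`s = 0` for `k = 0`), `ε = 2⁻¹ ^ (k-1)` gives `N k`, `Z k`.  Since `wt A k` depends only on the `A j`, `j < k`, this is a recursion; afterwards `decay` with `c = 2 * 3 ^ d`.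
-/

set_option autoImplicit false

namespace NI

open EB

open MeasureTheory

/-- a sequence of markers for the measure `μ` -/
structure Mk {d : ℕ} {X : Type} [MeasurableSpace X] (a : FreeAct d X) (μ : Measure X) (N : ℕ → ℕ)
    (Z : ℕ → Set X) : Prop where
  lt : ∀ k, N k + 3 < N (k + 1)
  meas : ∀ k, MeasurableSet (Z k)
  disc : ∀ k, Disc a (N k) (Z k)
  bad : ∀ k, μ (Bd a (N k + 3) (N (k + 1)) (Z (k + 1))) ≤ 2⁻¹ ^ k
  cov : ∀ᵐ x ∂μ, ∃ᶠ k in Filter.atTop, x ∈ Cv a (N k) (Z k)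

/-- one step, for an arbitrary weight -/
private theorem stepAux {d : ℕ} {X : Type} [MeasurableSpace X] [StandardBorelSpace X] (a : FreeAct d X)
    (μ : Measure X) [IsFiniteMeasure μ] (f : X → ENNReal) (s k : ℕ) :
    ∃ (N : ℕ) (Z : Set X), s < N ∧ MeasurableSet Z ∧ Disc a N Z ∧ μ (Bd a s N Z) ≤ 2⁻¹ ^ k ∧
      ((∀ x, f x ≤ 1) → (μ.withDensity f) Set.univ ≤ 2 * 3 ^ d * (μ.withDensity f) (Cv a N Z)) := by
  classical
  have hε : ((2 : ENNReal)⁻¹ ^ k) ≠ 0 := pow_ne_zero _ (by simp)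
  by_cases hf : ∀ x, f x ≤ 1
  · have hfin : IsFiniteMeasure (μ.withDensity f) := by
      refine isFiniteMeasure_withDensity ?_
      have h1 : ∫⁻ x, f x ∂μ ≤ ∫⁻ _, 1 ∂μ := lintegral_mono hf
      rw [lintegral_one] at h1
      exact ne_top_of_le_ne_top (measure_ne_top μ _) h1
    obtain ⟨N, Z, h1, h2, h3, h4, h5⟩ := step a (μ.withDensity f) μ s (2⁻¹ ^ k) hε
    exact ⟨N, Z, h1, h2, h3, h5, fun _ => h4⟩
  · obtain ⟨N, Z, h1, h2, h3, h4, h5⟩ := step a μ μ s (2⁻¹ ^ k) hε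
    exact ⟨N, Z, h1, h2, h3, h5, fun h => absurd h hf⟩

theorem exists_mk {d : ℕ} {X : Type} [MeasurableSpace X] [StandardBorelSpace X] (a : FreeAct d X)
    (μ : Measure X) [IsFiniteMeasure μ] : ∃ N Z, Mk a μ N Z := by
  classical
  choose Nf Zf hs hZ hD hB hC using fun (f : X → ENNReal) (s k : ℕ) => stepAux a μ f s k
  let upd : (X → ENNReal) → ℕ → Set X → (X → ENNReal) := fun f N Z x =>
    f x * (if x ∈ Cv a N Z then 2⁻¹ else 1)
  let f0 : X → ENNReal := fun _ => 1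
  let S : ℕ → (X → ENNReal) × ℕ × Set X := fun n => Nat.rec (f0, Nf f0 0 0, Zf f0 0 0)
    (fun k p => (upd p.1 p.2.1 p.2.2, Nf (upd p.1 p.2.1 p.2.2) (p.2.1 + 3) k,
      Zf (upd p.1 p.2.1 p.2.2) (p.2.1 + 3) k)) n
  let N : ℕ → ℕ := fun k => (S k).2.1
  let Z : ℕ → Set X := fun k => (S k).2.2
  let F : ℕ → X → ENNReal := fun k => (S k).1
  have hF0 : F 0 = f0 := rfl
  have hN0 : N 0 = Nf f0 0 0 := rfl
  have hZ0 : Z 0 = Zf f0 0 0 := rfl
  have hFs : ∀ k, F (k + 1) = upd (F k) (N k) (Z k) := fun k => rfl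
  have hNs : ∀ k, N (k + 1) = Nf (F (k + 1)) (N k + 3) k := fun k => rfl
  have hZs : ∀ k, Z (k + 1) = Zf (F (k + 1)) (N k + 3) k := fun k => rfl
  have hmeas : ∀ k, MeasurableSet (Z k) := by
    intro k
    cases k with
    | zero => rw [hZ0]; exact hZ _ _ _
    | succ k => rw [hZs]; exact hZ _ _ _
  have hdisc : ∀ k, Disc a (N k) (Z k) := by
    intro k
    cases k with
    | zero => rw [hZ0, hN0]; exact hD _ _ _
    | succ k => rw [hZs, hNs]; exact hD _ _ _
  have hwt : ∀ k x, F k x = wt (fun j => Cv a (N j) (Z j)) k x := by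
    intro k
    induction k with
    | zero => intro x; rw [hF0]; simp [f0, wt]
    | succ k ih =>
      intro x
      rw [hFs]
      simp only [upd]
      rw [ih x]
      unfold wt
      rw [Finset.prod_range_succ]
  have hwt' : ∀ k, F k = wt (fun j => Cv a (N j) (Z j)) k := fun k => funext (hwt k)
  have hle : ∀ k x, F k x ≤ 1 := fun k x => by rw [hwt]; exact wt_le _ k x
  have hcov : ∀ k, (μ.withDensity (F k)) Set.univ ≤
      2 * 3 ^ d * (μ.withDensity (F k)) (Cv a (N k) (Z k)) := by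
    intro k
    cases k with
    | zero => rw [hZ0, hN0]; exact hC _ _ _ (hle 0)
    | succ k => rw [hZs, hNs]; exact hC _ _ _ (hle (k + 1))
  refine ⟨N, Z, ⟨?_, hmeas, hdisc, ?_, ?_⟩⟩
  · intro k
    rw [hNs]
    exact hs _ _ _
  · intro k
    rw [hZs, hNs]
    exact hB _ _ _
  · refine decay μ (fun k => Cv a (N k) (Z k)) (fun k => Cv_meas a (N k) (Z k) (hmeas k))
      (2 * 3 ^ d) ?_ ?_
    · exact ENNReal.mul_ne_top (by simp) (ENNReal.pow_ne_top (by simp))
    · intro k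
      rw [← hwt' k]
      exact hcov k

end NI
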