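import Pool.Agent.Helper33.NI.CountCov
import Pool.Agent.Helper33.NI.CountBad
import Pool.Agent.Helper33.NI.Avg
import Pool.Agent.Helper27.EB.Col
import Pool.Agent.Helper27.EB.MaxD

/-!
# NI-25: one step

`window_col`, `exists_maxd` give `Z0` measurable, `Disc a N Z0` and maximal.  `Z = mv a (off N t) Z0` for the `t` of `avg` with `A t = Cv a N (mv ..)`, `B t = Bd a s N (mv ..)`, `k = N ^ d`, `l = 9 ^ d * (d * (4 s (3 N) ^ (d - 1)))`, number of shifts `(3 N) ^ d`.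
`N ^ d ν univ ≤ 2 (3 N) ^ d ν (Cv)` gives the first claim (`N > 0`).  `N ^ d μ (Bd) ≤ 2 l μ univ`, so `N μ (Bd) ≤ 8 * 9 ^ d * d * 3 ^ (d - 1) * s * μ univ` (for `d = 0`: `l = 0`, so `μ (Bd) = 0`); the right side is a finite constant, so `μ (Bd) ≤ ε` for large `N`.
-/

set_option autoImplicit false

namespace NI

open EB

open MeasureTheory

theorem step {d : ℕ} {X : Type} [MeasurableSpace X] [StandardBorelSpace X] (a : FreeAct d X)
    (ν μ : Measure X) [IsFiniteMeasure ν] [IsFiniteMeasure μ] (s : ℕ) (ε : ENNReal) (hε : ε ≠ 0) :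
    ∃ (N : ℕ) (Z : Set X), s < N ∧ MeasurableSet Z ∧ Disc a N Z ∧
      ν Set.univ ≤ 2 * 3 ^ d * ν (Cv a N Z) ∧ μ (Bd a s N Z) ≤ ε := by
  classical
  have hKt : ((8 * 9 ^ d * d * 3 ^ (d - 1) * s : ℕ) : ENNReal) * μ Set.univ ≠ ⊤ :=
    ENNReal.mul_ne_top (ENNReal.natCast_ne_top _) (measure_ne_top μ _)
  obtain ⟨n, hn⟩ := ENNReal.exists_nat_mul_gt hε hKt
  obtain ⟨N, hnN, hsN⟩ : ∃ N : ℕ, n ≤ N ∧ s < N :=
    ⟨max n (s + 1), le_max_left _ _, lt_of_lt_of_le (Nat.lt_succ_self s) (le_max_right _ _)⟩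
  have hN0 : 0 < N := lt_of_le_of_lt (Nat.zero_le s) hsN
  have hNK : ((8 * 9 ^ d * d * 3 ^ (d - 1) * s : ℕ) : ENNReal) * μ Set.univ ≤ N * ε :=
    hn.le.trans (mul_le_mul' (by exact_mod_cast hnN) le_rfl)
  obtain ⟨c, hc, hc'⟩ := window_col a N
  obtain ⟨Z0, hZ0, hdisc, hmax⟩ := exists_maxd a N c hc hc'
  have : Nonempty (Fin (3 * N)) := ⟨⟨0, by omega⟩⟩
  obtain ⟨t, h1, h2⟩ := avg ν μ (fun t : Fin d → Fin (3 * N) => Cv a N (mv a (off N t) Z0))
    (fun t => Bd a s N (mv a (off N t) Z0)) (fun t => Cv_meas a N _ (mv_meas a _ _ hZ0))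
    (fun t => Bd_meas a s N _ (mv_meas a _ _ hZ0)) (N ^ d)
    (9 ^ d * (d * (4 * s * (3 * N) ^ (d - 1)))) (fun x => count_cov a N Z0 hmax x)
    (fun x => count_bad a N s hsN.le Z0 hdisc x)
  have hNe : (N : ENNReal) ≠ 0 := by exact_mod_cast hN0.ne'
  have hNt : (N : ENNReal) ≠ ⊤ := ENNReal.natCast_ne_top N
  refine ⟨N, mv a (off N t) Z0, hsN, mv_meas a _ _ hZ0, mv_disc a N _ _ hdisc, ?_, ?_⟩
  · have hcard : (Fintype.card (Fin d → Fin (3 * N)) : ENNReal) = 3 ^ d * (N : ENNReal) ^ d := by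
      rw [Fintype.card_fun, Fintype.card_fin, Fintype.card_fin]
      push_cast
      rw [mul_pow]
    rw [hcard] at h1
    have h3 : (N : ENNReal) ^ d * ν Set.univ ≤
        (N : ENNReal) ^ d * (2 * 3 ^ d * ν (Cv a N (mv a (off N t) Z0))) := by
      calc (N : ENNReal) ^ d * ν Set.univ = ((N ^ d : ℕ) : ENNReal) * ν Set.univ := by push_cast; rfl
        _ ≤ _ := h1
        _ = _ := by ring
    exact (ENNReal.mul_le_mul_iff_right (pow_ne_zero d hNe) (ENNReal.pow_ne_top hNt)).1 h3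
  · have h2' : (N : ENNReal) ^ d * μ (Bd a s N (mv a (off N t) Z0)) ≤
        2 * ((9 ^ d * (d * (4 * s * (3 * N) ^ (d - 1))) : ℕ) : ENNReal) * μ Set.univ := by
      calc (N : ENNReal) ^ d * μ (Bd a s N (mv a (off N t) Z0))
          = ((N ^ d : ℕ) : ENNReal) * μ (Bd a s N (mv a (off N t) Z0)) := by push_cast; rfl
        _ ≤ _ := h2
    rcases Nat.eq_zero_or_pos d with hd | hd
    · subst hd
      simp only [pow_zero, one_mul, Nat.cast_zero, zero_mul, mul_zero, nonpos_iff_eq_zero] at h2'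
      rw [h2']
      exact bot_le
    · obtain ⟨e, rfl⟩ : ∃ e, d = e + 1 := ⟨d - 1, by omega⟩
      have h3 : (N : ENNReal) ^ e * (N * μ (Bd a s N (mv a (off N t) Z0))) ≤
          (N : ENNReal) ^ e * (N * ε) := by
        calc (N : ENNReal) ^ e * (N * μ (Bd a s N (mv a (off N t) Z0)))
            = (N : ENNReal) ^ (e + 1) * μ (Bd a s N (mv a (off N t) Z0)) := by ring
          _ ≤ _ := h2'
          _ = (N : ENNReal) ^ e *
              (((8 * 9 ^ (e + 1) * (e + 1) * 3 ^ (e + 1 - 1) * s : ℕ) : ENNReal) * μ Set.univ) := by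
            rw [Nat.add_sub_cancel]
            push_cast
            ring
          _ ≤ _ := mul_le_mul' le_rfl hNK
      have h4 := (ENNReal.mul_le_mul_iff_right (pow_ne_zero e hNe) (ENNReal.pow_ne_top hNt)).1 h3
      exact (ENNReal.mul_le_mul_iff_right hNe hNt).1 h4

end NI
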